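import Pool.Agent.U30.KL.Instance

set_option autoImplicit false
set_option linter.unusedSectionVars false
set_option linter.unusedVariables false

open scoped BigOperators

noncomputable section

namespace Pool.Agent.U30.KL

variable {k : ℕ} (hk : 2 ≤ k) (m : ℕ) (u : ℕ → ℝ) (N : ℕ) [NeZero N] (η : ℝ)

/-- the threshold offered to the bidder `b1` -/
def thr (v : Fin (k + 1) → ℝ) : ℝ :=
  lev m u ((∑ i ∈ J k hk, ((Function.invFun (val (N := N) η) (v i) : Fin N) : ℕ)) % (m + 1))

/-- the benchmark mechanism: sell to `b1` at the threshold, otherwise to `b0` at price one -/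
def bench : Mechanism (Fin (k + 1)) where
  x v i := if i = b1 k hk then (if thr hk m u N η v ≤ v (b1 k hk) then 1 else 0)
    else if i = b0 k then
      (if v (b1 k hk) < thr hk m u N η v ∧ 1 ≤ v (b0 k) then 1 else 0) else 0
  p v i := if i = b1 k hk then (if thr hk m u N η v ≤ v (b1 k hk) then thr hk m u N η v else 0)
    else if i = b0 k then
      (if v (b1 k hk) < thr hk m u N η v ∧ 1 ≤ v (b0 k) then 1 else 0) else 0

variable {m u N η}

theorem thr_update {v : Fin (k + 1) → ℝ} {i : Fin (k + 1)} (hi : i ∉ J k hk) (b : ℝ) :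
    thr hk m u N η (Function.update v i b) = thr hk m u N η v := by
  unfold thr
  congr 2
  apply Finset.sum_congr rfl
  intro j hj
  have : j ≠ i := fun h => hi (h ▸ hj)
  rw [Function.update_of_ne this]

theorem sum_two (f : Fin (k + 1) → ℝ) (hf : ∀ i, i ≠ b1 k hk → i ≠ b0 k → f i = 0) :
    ∑ i, f i = f (b1 k hk) + f (b0 k) := by
  apply Finset.sum_eq_add (b1 k hk) (b0 k) (b1_ne_b0 hk)
  · intro c _ hc
    exact hf c hc.1 hc.2
  · intro h; exact absurd (Finset.mem_univ _) h
  · intro h; exact absurd (Finset.mem_univ _) h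

theorem bench_valid : (bench hk m u N η).Valid := by
  constructor
  · intro v hv i
    simp only [bench]
    split_ifs <;> norm_num
  · intro v hv
    rw [sum_two hk _ (fun i h1 h0 => by simp [bench, h1, h0])]
    simp only [bench, if_true, if_neg (b1_ne_b0 hk).symm]
    by_cases h : thr hk m u N η v ≤ v (b1 k hk)
    · rw [if_pos h, if_neg (by intro h'; linarith [h'.1])]
      norm_num
    · rw [if_neg h]
      split_ifs <;> norm_num
  · intro v hv i b hb
    by_cases h1 : i = b1 k hk
    · subst h1
      simp only [bench, if_true, thr_update hk (b1_notMem_J hk), Function.update_self]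
      split_ifs <;> linarith
    · by_cases h0 : i = b0 k
      · subst h0
        simp only [bench, if_neg (b1_ne_b0 hk).symm, if_true, thr_update hk (b0_notMem_J hk),
          Function.update_self, Function.update_of_ne (b1_ne_b0 hk)]
        by_cases h2 : v (b1 k hk) < thr hk m u N η v
        · by_cases h3 : (1 : ℝ) ≤ b
          · by_cases h4 : 1 ≤ v (b0 k)
            · simp [h2, h3, h4]
            · push Not at h4
              simp only [h2, h3, true_and, if_true, not_le.2 h4, if_false]
              linarith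
          · by_cases h4 : 1 ≤ v (b0 k)
            · simp only [h2, h3, true_and, if_false, h4, if_true]
              linarith
            · simp [h2, h3, h4]
        · simp [h2]
      · simp [bench, h1, h0]
  · intro v hv i
    by_cases h1 : i = b1 k hk
    · subst h1
      simp only [bench, if_true]
      split_ifs <;> linarith
    · by_cases h0 : i = b0 k
      · subst h0
        simp only [bench, if_neg (b1_ne_b0 hk).symm, if_true]
        split_ifs with h <;> [(have := h.2; linarith); simp]
      · simp [bench, h1, h0]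

theorem thr_prof (hη : 0 < η) (l : ℕ) (s : Fin (k + 1) → Fin N) :
    thr hk m u N η (prof hk m u η l s) = lev m u (line m (J k hk) s) := by
  unfold thr line
  congr 2
  apply Finset.sum_congr rfl
  intro i hi
  rw [prof_J hk l s hi, Function.leftInverse_invFun (val_injective hη)]

theorem lev_eq {l : ℕ} (hl : l ≤ m) : lev m u l = 1 / (1 - u l) := by
  unfold lev
  rw [min_eq_left hl]

theorem lev_mono (h : Lev m u) {l l' : ℕ} (hl : l ≤ l') (hl' : l' ≤ m) :
    lev m u l ≤ lev m u l' := by
  induction l', hl using Nat.le_induction with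
  | base => exact le_rfl
  | succ n hn ih =>
    refine (ih (by omega)).trans ?_
    rw [lev_eq (show n ≤ m by omega), lev_eq hl']
    have h1 := h.lt_one (n + 1) hl'
    have h2 := h.mono n hl'
    exact one_div_le_one_div_of_le (by linarith) (by linarith)

theorem bench_pay (h : Lev m u) (hη : 0 < η) {l : ℕ} (s : Fin (k + 1) → Fin N)
    (hl : l ≤ line m (J k hk) s) :
    (if l < line m (J k hk) s then (1 : ℝ) else 1 / (1 - u (line m (J k hk) s)))
      ≤ ∑ i, (bench hk m u N η).p (prof hk m u η l s) i := by
  have hr := line_le (m := m) (J k hk) s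
  rw [sum_two hk _ (fun i h1 h0 => by simp [bench, h1, h0])]
  simp only [bench, if_true, if_neg (b1_ne_b0 hk).symm, thr_prof hk hη, prof_b0, prof_b1, le_refl,
    and_true]
  by_cases h2 : lev m u (line m (J k hk) s) ≤ lev m u l
  · rw [if_pos h2, if_neg (not_lt.2 h2)]
    split_ifs with h1
    · linarith [one_lt_lev h (line m (J k hk) s)]
    · rw [← lev_eq hr]
      linarith
  · rw [if_neg h2, if_pos (not_le.1 h2)]
    split_ifs with h1
    · simp
    · have hll : l = line m (J k hk) s := by omega
      exact absurd (by rw [← hll]) h2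

/-! ### The law -/

/-- the outcomes of the instance -/
abbrev Out (k N : ℕ) : Type := (Fin (k + 1) → Fin N) × ℕ

variable (k N)

/-- the index set of the instance -/
def outs (m : ℕ) : Finset (Out k N) := Finset.univ ×ˢ Finset.range (m + 1)

variable {k N}

/-- total weight -/
def tot (m : ℕ) (u : ℕ → ℝ) (N : ℕ) : ℝ :=
  ∑ ω ∈ outs k N m, W m u (line m (J k hk) ω.1) ω.2

theorem tot_eq (h : Lev m u) (hdiv : (m + 1) ∣ N) :
    tot hk m u N = (N : ℝ) ^ (k + 1) / (m + 1) * ((1 - u 0) / u 0) := by
  unfold tot outs
  rw [Finset.sum_product, sum_by_line (m := m) (J k hk)]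
  have h1 : ∀ r ∈ Finset.range (m + 1), ∑ s ∈ onLine m (J k hk) N r,
      ∑ l ∈ Finset.range (m + 1), W m u (line m (J k hk) s) l
      = (N : ℝ) ^ (k + 1) / (m + 1) * (lam m u r * (1 - u 0)) := by
    intro r hr
    have hr' : r ≤ m := by simp only [Finset.mem_range] at hr; omega
    have h2 : ∀ s ∈ onLine m (J k hk) N r,
        ∑ l ∈ Finset.range (m + 1), W m u (line m (J k hk) s) l = lam m u r * (1 - u 0) := by
      intro s hs
      rw [(Finset.mem_filter.1 hs).2]
      have e := W_row_sum (u := u) hr' (fun _ => 1)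
      simp only [mul_one] at e
      rw [e, Finset.sum_range_sub u]
      ring
    rw [Finset.sum_congr rfl h2, Finset.sum_const, nsmul_eq_mul]
    congr 1
    have h3 := card_onLine (m := m) (N := N) hdiv (J_nonempty hk) hr'
    rw [Fintype.card_fin] at h3
    have h4 : ((m : ℝ) + 1) * ((onLine m (J k hk) N r).card : ℝ) = (N : ℝ) ^ (k + 1) := by
      exact_mod_cast h3
    rw [eq_div_iff (by positivity)]
    linarith
  rw [Finset.sum_congr rfl h1, ← Finset.mul_sum, ← Finset.sum_mul, sum_lam h]
  ring

theorem tot_pos (h : Lev m u) (hdiv : (m + 1) ∣ N) : 0 < tot hk m u N := by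
  rw [tot_eq hk h hdiv]
  have h1 := h.pos 0 (Nat.zero_le _)
  have h2 := h.lt_one 0 (Nat.zero_le _)
  have h3 : 0 < N := Nat.pos_of_ne_zero (NeZero.ne N)
  have : 0 < 1 - u 0 := by linarith
  positivity

/-- the law of the instance -/
def inst (h : Lev m u) (hη : 0 < η) (hdiv : (m + 1) ∣ N) : Law (k + 1) where
  w := mix (outs k N m) (fun ω => prof hk m u η ω.2 ω.1)
    (fun ω => W m u (line m (J k hk) ω.1) ω.2 / tot hk m u N)
  nonneg := mix_nonneg _ _ _ (fun ω _ =>
    div_nonneg (W_nonneg h (line_le _ _)) (tot_pos hk h hdiv).le)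
  total := by
    rw [mix_total, ← Finset.sum_div]
    exact div_self (tot_pos hk h hdiv).ne'
  pos := by
    intro v hv
    obtain ⟨ω, _, rfl⟩ := mix_support _ _ _ hv
    exact prof_pos hk h hη _ _

theorem inst_sum (h : Lev m u) (hη : 0 < η) (hdiv : (m + 1) ∣ N) (f : (Fin (k + 1) → ℝ) → ℝ) :
    (inst hk h hη hdiv).w.sum (fun v a => a * f v)
      = (∑ s : Fin (k + 1) → Fin N, ∑ l ∈ Finset.range (m + 1),
          W m u (line m (J k hk) s) l * f (prof hk m u η l s)) / tot hk m u N := by
  show (mix _ _ _).sum (fun v a => a * f v) = _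
  rw [mix_sum, outs, Finset.sum_product, Finset.sum_div]
  apply Finset.sum_congr rfl
  intro s _
  rw [Finset.sum_div]
  apply Finset.sum_congr rfl
  intro l _
  ring

/-- lower bound for the optimal revenue of the instance -/
theorem inst_opt (h : Lev m u) (hη : 0 < η) (hdiv : (m + 1) ∣ N) :
    (N : ℝ) ^ (k + 1) / (m + 1) *
        (∑ r ∈ Finset.range (m + 1), lam m u r * (1 + u r - u 0)) / tot hk m u N
      ≤ (inst hk h hη hdiv).opt := by
  refine le_trans ?_ (le_opt _ (bench_valid hk (m := m) (u := u) (N := N) (η := η)))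
  unfold Law.rev
  rw [inst_sum]
  apply div_le_div_of_nonneg_right _ (tot_pos hk h hdiv).le
  have e := bench_sum (σ := Fin (k + 1)) (N := N) h hdiv (J_nonempty hk)
  rw [Fintype.card_fin] at e
  rw [← e]
  apply Finset.sum_le_sum
  intro s _
  apply Finset.sum_le_sum
  intro l _
  rcases Nat.lt_or_ge (line m (J k hk) s) l with hl | hl
  · rw [W_zero hl, zero_mul, zero_mul]
  · exact mul_le_mul_of_nonneg_left (bench_pay hk h hη s hl) (W_nonneg h (line_le _ _))

/-- upper bound for the lookahead revenue of the instance -/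
theorem inst_look (h : Lev m u) (hη : 0 < η) (hdiv : (m + 1) ∣ N) {R : Rule (k + 1)}
    (hR : IsLookahead k (inst hk h hη hdiv) R) :
    (inst hk h hη hdiv).lookRev k R
      ≤ ((1 + η) / u 0 * ((N : ℝ) ^ (k + 1) / (m + 1)
        + (J k hk).card * (m * (N : ℝ) ^ k))) / tot hk m u N := by
  set D := inst hk h hη hdiv with hD
  have hout : ∀ (l : ℕ) (s : Fin (k + 1) → Fin N),
      outside (K0 k) (prof hk m u η l s) = fun _ => (1 : ℝ) := by
    intro l s
    funext i
    have : i.1 = b0 k := by
      by_contra hne
      exact i.2 (Finset.mem_erase.2 ⟨hne, Finset.mem_univ _⟩)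
    simp only [outside, this]
    exact prof_b0 hk l s
  have htop : ∀ (l : ℕ) (s : Fin (k + 1) → Fin N), top k (prof hk m u η l s) = K0 k := by
    intro l s
    exact top_eq (prof_gt hk h hη l s)
  -- the support is nonempty
  have hne : D.w.support.Nonempty := by
    rw [Finset.nonempty_iff_ne_empty]
    intro he
    have h1 := D.total
    rw [Finsupp.support_eq_empty.1 he, Finsupp.sum_zero_index] at h1
    exact zero_ne_one h1
  set M := R (K0 k) (fun _ => (1 : ℝ)) with hM
  have hvalid : M.Valid := by
    obtain ⟨v, hv⟩ := hne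
    obtain ⟨ω, _, hω⟩ := mix_support _ _ _ hv
    have h1 := (hR v hv).1
    rw [hω] at h1
    have key : ∀ (K : Finset (Fin (k + 1))) (hK : K = K0 k),
        (R K (outside K (prof hk m u η ω.2 ω.1))).Valid → M.Valid := by
      intro K hK
      subst hK
      intro h2
      rwa [hout] at h2
    exact key _ (htop _ _) h1
  have hpay : ∀ (l : ℕ) (s : Fin (k + 1) → Fin N), R.pay k (prof hk m u η l s)
      = ∑ i, M.p (inside (K0 k) (prof hk m u η l s)) i := by
    intro l s
    unfold Rule.pay
    have key : ∀ (K : Finset (Fin (k + 1))) (hK : K = K0 k),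
        ∑ i, (R K (outside K (prof hk m u η l s))).p (inside K (prof hk m u η l s)) i
          = ∑ i, M.p (inside (K0 k) (prof hk m u η l s)) i := by
      intro K hK
      subst hK
      rw [hout]
    exact key _ (htop _ _)
  unfold Law.lookRev
  rw [inst_sum]
  apply div_le_div_of_nonneg_right _ (tot_pos hk h hdiv).le
  refine le_trans (le_of_eq ?_) (lookahead_bound hk h hη hdiv hvalid)
  apply Finset.sum_congr rfl
  intro s _
  apply Finset.sum_congr rfl
  intro l _
  rw [hpay]

end Pool.Agent.U30.KL
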