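import Pool.Agent.U30.KL.Core

set_option autoImplicit false
set_option linter.unusedSectionVars false

open scoped BigOperators

noncomputable section

namespace Pool.Agent.U30.KL

variable {m : ℕ} {u : ℕ → ℝ} {σ : Type} [Fintype σ] [DecidableEq σ] {N : ℕ}

theorem sum_lam (h : Lev m u) : ∑ r ∈ Finset.range (m + 1), lam m u r = 1 / u 0 := by
  rw [Finset.range_eq_Ico]
  exact lam_tail h m 0 (by omega)

theorem core_bound (h : Lev m u) (hdiv : (m + 1) ∣ N) {J : Finset σ}
    (hJ : J.Nonempty) {η : ℝ} (hη : 0 ≤ η)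
    (xb pb : ℕ → (σ → Fin N) → ℝ) (xs ps : ℕ → (σ → Fin N) → σ → ℝ)
    (hb0 : ∀ s, (1 - u 0) * pb 0 s ≤ xb 0 s)
    (hb : ∀ s l, l < m → (1 - u (l + 1)) * (pb (l + 1) s - pb l s) ≤ xb (l + 1) s - xb l s)
    (hps : ∀ l s, ∀ i ∈ J, ps l s i ≤ (1 + η) * xs l s i)
    (hx0 : ∀ l s, ∀ i ∈ J, 0 ≤ xs l s i)
    (hxb : ∀ l s, 0 ≤ xb l s)
    (hfe : ∀ l s, xb l s + ∑ i ∈ J, xs l s i ≤ 1)
    (hmon : ∀ l s, ∀ i ∈ J, ∀ t : Fin N, s i ≤ t →
      xs l s i ≤ xs l (Function.update s i t) i) :
    ∑ s, ∑ l ∈ Finset.range (m + 1), W m u (line m J s) l * (pb l s + ∑ i ∈ J, ps l s i)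
      ≤ (1 + η) / u 0 * ((N : ℝ) ^ Fintype.card σ / (m + 1)
        + J.card * (m * (N : ℝ) ^ (Fintype.card σ - 1))) := by
  classical
  set L : ℝ := (N : ℝ) ^ Fintype.card σ / (m + 1) with hL
  set Bd : ℝ := J.card * (m * (N : ℝ) ^ (Fintype.card σ - 1)) with hBd
  have hBd0 : 0 ≤ Bd := by positivity
  have hLcard : ∀ r ≤ m, ((onLine m J N r).card : ℝ) = L := by
    intro r hr
    have h1 := card_onLine (m := m) (N := N) hdiv hJ hr
    have h2 : ((m : ℝ) + 1) * ((onLine m J N r).card : ℝ) = (N : ℝ) ^ Fintype.card σ := by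
      exact_mod_cast h1
    rw [hL, eq_div_iff (by positivity)]
    linarith
  have hc0 : ∀ l s, 0 ≤ ∑ i ∈ J, xs l s i := fun l s => Finset.sum_nonneg (hx0 l s)
  have hc1 : ∀ l s, ∑ i ∈ J, xs l s i ≤ 1 := fun l s => by
    have := hfe l s; have := hxb l s; linarith
  have hx1 : ∀ l s, ∀ i ∈ J, xs l s i ≤ 1 := fun l s i hi =>
    (Finset.single_le_sum (hx0 l s) hi).trans (hc1 l s)
  -- column sums
  set C : ℕ → ℕ → ℝ := fun r l => ∑ s ∈ onLine m J N r, ∑ i ∈ J, xs l s i with hC
  have hC0 : ∀ r l, 0 ≤ C r l := fun r l => Finset.sum_nonneg (fun s _ => hc0 l s)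
  have hCL : ∀ r ≤ m, ∀ l, C r l ≤ L := by
    intro r hr l
    rw [← hLcard r hr]
    calc C r l ≤ ∑ s ∈ onLine m J N r, (1 : ℝ) := Finset.sum_le_sum (fun s _ => hc1 l s)
      _ = ((onLine m J N r).card : ℝ) := by simp
  have hCt : ∀ r ≤ m, ∀ l ≤ m, C r l ≤ C l l + Bd := by
    intro r hr l hl
    have e1 : ∀ r', C r' l = ∑ i ∈ J, ∑ s ∈ onLine m J N r', xs l s i := fun r' =>
      Finset.sum_comm
    rw [e1 r, e1 l]
    have h2 : ∀ i ∈ J, ∑ s ∈ onLine m J N r, xs l s i
        ≤ ∑ s ∈ onLine m J N l, xs l s i + m * (N : ℝ) ^ (Fintype.card σ - 1) := by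
      intro i hi
      have h3 := line_transfer (m := m) hdiv hi (fun s => xs l s i) (fun s => hx0 l s i hi)
        (fun s => hx1 l s i hi) (fun s t hst => hmon l s i hi t hst) hr hl
      have h4 : ((bad m N i).card : ℝ) ≤ m * (N : ℝ) ^ (Fintype.card σ - 1) := by
        exact_mod_cast card_bad (N := N) m i
      linarith
    calc ∑ i ∈ J, ∑ s ∈ onLine m J N r, xs l s i
        ≤ ∑ i ∈ J, (∑ s ∈ onLine m J N l, xs l s i + m * (N : ℝ) ^ (Fintype.card σ - 1)) :=
          Finset.sum_le_sum h2
      _ = ∑ i ∈ J, ∑ s ∈ onLine m J N l, xs l s i + Bd := by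
          rw [Finset.sum_add_distrib, Finset.sum_const, nsmul_eq_mul]
  -- step 1 and 2
  have step1 : ∀ s, ∑ l ∈ Finset.range (m + 1),
        W m u (line m J s) l * (pb l s + ∑ i ∈ J, ps l s i)
      ≤ lam m u (line m J s) * (1 - ∑ i ∈ J, xs (line m J s) s i)
        + (1 + η) * ∑ l ∈ Finset.range (m + 1),
          W m u (line m J s) l * ∑ i ∈ J, xs l s i := by
    intro s
    have hr := line_le (m := m) J s
    have e1 : ∑ l ∈ Finset.range (m + 1),
        W m u (line m J s) l * (pb l s + ∑ i ∈ J, ps l s i)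
        = ∑ l ∈ Finset.range (m + 1), W m u (line m J s) l * pb l s
          + ∑ l ∈ Finset.range (m + 1), W m u (line m J s) l * ∑ i ∈ J, ps l s i := by
      rw [← Finset.sum_add_distrib]
      exact Finset.sum_congr rfl (fun l _ => by ring)
    rw [e1]
    apply add_le_add
    · refine (row_bound' h (fun l => xb l s) (fun l => pb l s) (hb0 s) (hb s) hr).trans ?_
      apply mul_le_mul_of_nonneg_left _ (lam_nonneg h hr)
      have := hfe (line m J s) s
      linarith
    · rw [Finset.mul_sum]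
      apply Finset.sum_le_sum
      intro l _
      have h5 : ∑ i ∈ J, ps l s i ≤ (1 + η) * ∑ i ∈ J, xs l s i := by
        rw [Finset.mul_sum]
        exact Finset.sum_le_sum (hps l s)
      calc W m u (line m J s) l * ∑ i ∈ J, ps l s i
          ≤ W m u (line m J s) l * ((1 + η) * ∑ i ∈ J, xs l s i) :=
            mul_le_mul_of_nonneg_left h5 (W_nonneg h hr)
        _ = (1 + η) * (W m u (line m J s) l * ∑ i ∈ J, xs l s i) := by ring
  refine (Finset.sum_le_sum (fun s _ => step1 s)).trans ?_
  rw [Finset.sum_add_distrib, ← Finset.mul_sum]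
  -- regroup by lines
  have g1 : ∑ s : σ → Fin N, lam m u (line m J s) * (1 - ∑ i ∈ J, xs (line m J s) s i)
      = ∑ r ∈ Finset.range (m + 1), lam m u r * (L - C r r) := by
    rw [sum_by_line (m := m) J]
    apply Finset.sum_congr rfl
    intro r hr
    have hr' : r ≤ m := by simp only [Finset.mem_range] at hr; omega
    have : ∀ s ∈ onLine m J N r, lam m u (line m J s) * (1 - ∑ i ∈ J, xs (line m J s) s i)
        = lam m u r * (1 - ∑ i ∈ J, xs r s i) := by
      intro s hs
      rw [(Finset.mem_filter.1 hs).2]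
    rw [Finset.sum_congr rfl this, ← Finset.mul_sum, Finset.sum_sub_distrib]
    simp only [Finset.sum_const, nsmul_eq_mul, mul_one]
    rw [hLcard r hr']
  have g2 : ∑ s : σ → Fin N, ∑ l ∈ Finset.range (m + 1),
        W m u (line m J s) l * ∑ i ∈ J, xs l s i
      = ∑ l ∈ Finset.range (m + 1), ∑ r ∈ Finset.range (m + 1), W m u r l * C r l := by
    rw [sum_by_line (m := m) J, Finset.sum_comm]
    rw [Finset.sum_comm]
    rw [Finset.sum_comm (s := Finset.range (m + 1)) (t := Finset.range (m + 1))]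
    apply Finset.sum_congr rfl
    intro r hr
    rw [Finset.sum_comm]
    apply Finset.sum_congr rfl
    intro l _
    rw [hC, Finset.mul_sum]
    apply Finset.sum_congr rfl
    intro s hs
    rw [(Finset.mem_filter.1 hs).2]
  rw [g1, g2]
  have g3 : ∑ l ∈ Finset.range (m + 1), ∑ r ∈ Finset.range (m + 1), W m u r l * C r l
      ≤ ∑ l ∈ Finset.range (m + 1), lam m u l * (C l l + Bd) := by
    apply Finset.sum_le_sum
    intro l hl
    have hl' : l ≤ m := by simp only [Finset.mem_range] at hl; omega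
    calc ∑ r ∈ Finset.range (m + 1), W m u r l * C r l
        ≤ ∑ r ∈ Finset.range (m + 1), W m u r l * (C l l + Bd) := by
          apply Finset.sum_le_sum
          intro r hr
          have hr' : r ≤ m := by simp only [Finset.mem_range] at hr; omega
          exact mul_le_mul_of_nonneg_left (hCt r hr' l hl') (W_nonneg h hr')
      _ = (∑ r ∈ Finset.range (m + 1), W m u r l) * (C l l + Bd) := by
          rw [Finset.sum_mul]
      _ ≤ lam m u l * (C l l + Bd) := by
          apply mul_le_mul_of_nonneg_right (W_col h hl')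
          have := hC0 l l
          linarith
  calc ∑ r ∈ Finset.range (m + 1), lam m u r * (L - C r r)
        + (1 + η) * ∑ l ∈ Finset.range (m + 1), ∑ r ∈ Finset.range (m + 1), W m u r l * C r l
      ≤ ∑ r ∈ Finset.range (m + 1), lam m u r * (L - C r r)
        + (1 + η) * ∑ l ∈ Finset.range (m + 1), lam m u l * (C l l + Bd) := by
        have : 0 ≤ 1 + η := by linarith
        have := mul_le_mul_of_nonneg_left g3 this
        linarith
    _ = ∑ r ∈ Finset.range (m + 1), lam m u r * (L + η * C r r + (1 + η) * Bd) := by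
        rw [Finset.mul_sum, ← Finset.sum_add_distrib]
        apply Finset.sum_congr rfl
        intro r _
        ring
    _ ≤ ∑ r ∈ Finset.range (m + 1), lam m u r * ((1 + η) * (L + Bd)) := by
        apply Finset.sum_le_sum
        intro r hr
        have hr' : r ≤ m := by simp only [Finset.mem_range] at hr; omega
        apply mul_le_mul_of_nonneg_left _ (lam_nonneg h hr')
        have := mul_le_mul_of_nonneg_left (hCL r hr' r) hη
        nlinarith
    _ = (1 + η) / u 0 * (L + Bd) := by
        rw [← Finset.sum_mul, sum_lam h]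
        ring

/-- The benchmark: selling at the threshold of the line, and otherwise at price `1`. -/
theorem bench_sum (h : Lev m u) (hdiv : (m + 1) ∣ N) {J : Finset σ} (hJ : J.Nonempty) :
    ∑ s : σ → Fin N, ∑ l ∈ Finset.range (m + 1), W m u (line m J s) l *
        (if l < line m J s then 1 else 1 / (1 - u (line m J s)))
      = (N : ℝ) ^ Fintype.card σ / (m + 1) *
        ∑ r ∈ Finset.range (m + 1), lam m u r * (1 + u r - u 0) := by
  have hLcard : ∀ r ≤ m, ((onLine m J N r).card : ℝ)
      = (N : ℝ) ^ Fintype.card σ / (m + 1) := by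
    intro r hr
    have h1 := card_onLine (m := m) (N := N) hdiv hJ hr
    have h2 : ((m : ℝ) + 1) * ((onLine m J N r).card : ℝ) = (N : ℝ) ^ Fintype.card σ := by
      exact_mod_cast h1
    rw [eq_div_iff (by positivity)]
    linarith
  rw [sum_by_line (m := m) J, Finset.mul_sum]
  apply Finset.sum_congr rfl
  intro r hr
  have hr' : r ≤ m := by simp only [Finset.mem_range] at hr; omega
  have h3 : ∀ s ∈ onLine m J N r, ∑ l ∈ Finset.range (m + 1), W m u (line m J s) l *
        (if l < line m J s then 1 else 1 / (1 - u (line m J s)))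
      = lam m u r * (1 + u r - u 0) := by
    intro s hs
    rw [(Finset.mem_filter.1 hs).2]
    rw [W_row_sum hr' (fun l => if l < r then 1 else 1 / (1 - u r))]
    congr 1
    have h4 : ∑ l ∈ Finset.range r, (u (l + 1) - u l) * (if l < r then 1 else 1 / (1 - u r))
        = u r - u 0 := by
      rw [← Finset.sum_range_sub u r]
      apply Finset.sum_congr rfl
      intro l hl
      rw [if_pos (Finset.mem_range.1 hl), mul_one]
    rw [h4, if_neg (lt_irrefl r)]
    have := h.lt_one r hr'
    field_simp [show (1 - u r) ≠ 0 by linarith]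
    ring
  rw [Finset.sum_congr rfl h3, Finset.sum_const, nsmul_eq_mul, hLcard r hr']

end Pool.Agent.U30.KL
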