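import Mathlib

/-!
# The combinatorial core of the upper bound for the `k`-lookahead mechanism
-/

set_option autoImplicit false
set_option linter.unusedSectionVars false

open scoped BigOperators

noncomputable section

namespace Pool.Agent.U30.KL

/-- weights of the lines -/
def lam (m : ℕ) (u : ℕ → ℝ) (r : ℕ) : ℝ := if r = m then 1 / u m else 1 / u r - 1 / u (r + 1)

/-- weight of level `l` on the line `r` -/
def W (m : ℕ) (u : ℕ → ℝ) (r l : ℕ) : ℝ :=
  if l < r then lam m u r * (u (l + 1) - u l) else if l = r then lam m u r * (1 - u r) else 0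

variable {m : ℕ} {u : ℕ → ℝ}

/-- assumptions on the levels -/
structure Lev (m : ℕ) (u : ℕ → ℝ) : Prop where
  pos : ∀ l ≤ m, 0 < u l
  lt_one : ∀ l ≤ m, u l < 1
  mono : ∀ l < m, u l ≤ u (l + 1)

theorem lam_tail (_h : Lev m u) : ∀ d l, l + d = m →
    ∑ r ∈ Finset.Ico l (m + 1), lam m u r = 1 / u l := by
  intro d
  induction d with
  | zero =>
    intro l hl
    obtain rfl : l = m := by omega
    rw [Finset.sum_eq_sum_Ico_succ_bot (by omega)]
    simp [lam]
  | succ d ih =>
    intro l hl
    rw [Finset.sum_eq_sum_Ico_succ_bot (by omega), ih (l + 1) (by omega)]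
    have : l ≠ m := by omega
    simp [lam, this]

theorem lam_nonneg (h : Lev m u) {r : ℕ} (hr : r ≤ m) : 0 ≤ lam m u r := by
  unfold lam
  split_ifs with h1
  · exact (one_div_pos.2 (h.pos m le_rfl)).le
  · have h2 : r < m := by omega
    have := one_div_le_one_div_of_le (h.pos r hr) (h.mono r h2)
    linarith

theorem W_nonneg (h : Lev m u) {r l : ℕ} (hr : r ≤ m) : 0 ≤ W m u r l := by
  unfold W
  split_ifs with h1 h2
  · exact mul_nonneg (lam_nonneg h hr) (by have := h.mono l (by omega); linarith)
  · exact mul_nonneg (lam_nonneg h hr) (by have := h.lt_one r hr; linarith)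
  · exact le_rfl

theorem W_zero {r l : ℕ} (h : r < l) : W m u r l = 0 := by
  unfold W
  rw [if_neg (by omega), if_neg (by omega)]

theorem W_col (h : Lev m u) {l : ℕ} (hl : l ≤ m) :
    ∑ r ∈ Finset.range (m + 1), W m u r l ≤ lam m u l := by
  have h1 : ∑ r ∈ Finset.range (m + 1), W m u r l = ∑ r ∈ Finset.Ico l (m + 1), W m u r l := by
    rw [Finset.range_eq_Ico]
    symm
    apply Finset.sum_subset
    · intro r hr
      simp only [Finset.mem_Ico] at hr ⊢
      omega
    · intro r hr hr'
      simp only [Finset.mem_Ico] at hr hr'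
      exact W_zero (by omega)
  rw [h1, Finset.sum_eq_sum_Ico_succ_bot (by omega)]
  have h2 : W m u l l = lam m u l * (1 - u l) := by simp [W]
  have h3 : ∑ r ∈ Finset.Ico (l + 1) (m + 1), W m u r l
      = (u (l + 1) - u l) * ∑ r ∈ Finset.Ico (l + 1) (m + 1), lam m u r := by
    rw [Finset.mul_sum]
    apply Finset.sum_congr rfl
    intro r hr
    simp only [Finset.mem_Ico] at hr
    simp only [W]
    rw [if_pos (by omega)]
    ring
  rw [h2, h3]
  rcases Nat.lt_or_ge l m with hlm | hlm
  · rw [lam_tail h (m - (l + 1)) (l + 1) (by omega)]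
    have hne : l ≠ m := by omega
    have e1 : lam m u l = 1 / u l - 1 / u (l + 1) := by simp [lam, hne]
    rw [e1]
    have p1 := h.pos l hl
    have p2 := h.pos (l + 1) hlm
    apply le_of_eq
    field_simp
    ring
  · obtain rfl : l = m := by omega
    simp only [Finset.Ico_self, Finset.sum_empty, mul_zero, add_zero]
    have p1 := h.pos l le_rfl
    have p2 := lam_nonneg h (le_refl l)
    nlinarith

/-- Sum of a row as a sum over `l < r` plus the diagonal term. -/
theorem W_row_sum {r : ℕ} (hr : r ≤ m) (f : ℕ → ℝ) :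
    ∑ l ∈ Finset.range (m + 1), W m u r l * f l
      = lam m u r * (∑ l ∈ Finset.range r, (u (l + 1) - u l) * f l + (1 - u r) * f r) := by
  have h1 : ∑ l ∈ Finset.range (m + 1), W m u r l * f l
      = ∑ l ∈ Finset.range (r + 1), W m u r l * f l := by
    symm
    apply Finset.sum_subset
    · intro l hl
      simp only [Finset.mem_range] at hl ⊢
      omega
    · intro l _ hl'
      simp only [Finset.mem_range] at hl'
      rw [W_zero (by omega), zero_mul]
  rw [h1, Finset.sum_range_succ, mul_add, Finset.mul_sum]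
  congr 1
  · apply Finset.sum_congr rfl
    intro l hl
    simp only [Finset.mem_range] at hl
    simp only [W]
    rw [if_pos hl]
    ring
  · simp only [W, lt_irrefl, if_false, if_true]
    ring

theorem row_bound (x p : ℕ → ℝ) (h0 : (1 - u 0) * p 0 ≤ x 0)
    (hs : ∀ l, l < m → (1 - u (l + 1)) * (p (l + 1) - p l) ≤ x (l + 1) - x l) :
    ∀ r ≤ m, ∑ l ∈ Finset.range r, (u (l + 1) - u l) * p l + (1 - u r) * p r ≤ x r := by
  intro r
  induction r with
  | zero => intro _; simpa using h0
  | succ r ih =>
    intro hr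
    have h1 := ih (by omega)
    have h2 := hs r (by omega)
    rw [Finset.sum_range_succ]
    nlinarith [h1, h2]

theorem row_bound' (h : Lev m u) (x p : ℕ → ℝ) (h0 : (1 - u 0) * p 0 ≤ x 0)
    (hs : ∀ l, l < m → (1 - u (l + 1)) * (p (l + 1) - p l) ≤ x (l + 1) - x l)
    {r : ℕ} (hr : r ≤ m) :
    ∑ l ∈ Finset.range (m + 1), W m u r l * p l ≤ lam m u r * x r := by
  rw [W_row_sum hr]
  exact mul_le_mul_of_nonneg_left (row_bound x p h0 hs r hr) (lam_nonneg h hr)

section Lines

variable {σ : Type} [Fintype σ] [DecidableEq σ] {N : ℕ}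

/-- the line (threshold index) of a vector of codes -/
def line (m : ℕ) (J : Finset σ) (s : σ → Fin N) : ℕ := (∑ i ∈ J, (s i : ℕ)) % (m + 1)

theorem line_le (J : Finset σ) (s : σ → Fin N) : line m J s ≤ m := by
  have h : (∑ i ∈ J, (s i : ℕ)) % (m + 1) < m + 1 := Nat.mod_lt _ (Nat.succ_pos m)
  exact Nat.lt_succ_iff.1 h

/-- cyclic shift of one coordinate -/
def shf (i : σ) (d : ℕ) (s : σ → Fin N) : σ → Fin N :=
  Function.update s i ⟨((s i : ℕ) + d) % N, Nat.mod_lt _ (lt_of_le_of_lt (Nat.zero_le _) (s i).2)⟩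

theorem shf_injective (i : σ) (d : ℕ) : Function.Injective (shf (N := N) i d) := by
  intro s t h
  funext j
  by_cases hj : j = i
  · subst hj
    have h1 := congrFun h j
    simp only [shf, Function.update_self] at h1
    have h2 : ((s j : ℕ) + d) % N = ((t j : ℕ) + d) % N := congrArg Fin.val h1
    have h3 : (s j : ℕ) ≡ (t j : ℕ) [MOD N] := Nat.ModEq.add_right_cancel' d h2
    apply Fin.ext
    exact Nat.ModEq.eq_of_lt_of_lt h3 (s j).2 (t j).2
  · have h1 := congrFun h j
    simpa [shf, Function.update_of_ne hj] using h1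

theorem line_shf (hdiv : (m + 1) ∣ N) {J : Finset σ} {i : σ} (hi : i ∈ J) (d : ℕ)
    (s : σ → Fin N) : line m J (shf i d s) = (line m J s + d) % (m + 1) := by
  have h1 : ∑ j ∈ J, ((shf i d s j : Fin N) : ℕ)
      = ((s i : ℕ) + d) % N + ∑ j ∈ J.erase i, (s j : ℕ) := by
    rw [← Finset.add_sum_erase J _ hi]
    congr 1
    · simp [shf]
    · apply Finset.sum_congr rfl
      intro j hj
      have : j ≠ i := (Finset.mem_erase.1 hj).1
      simp [shf, Function.update_of_ne this]
  have h2 : ∑ j ∈ J, ((s j : Fin N) : ℕ) = (s i : ℕ) + ∑ j ∈ J.erase i, (s j : ℕ) :=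
    (Finset.add_sum_erase J _ hi).symm
  simp only [line]
  rw [h1, h2]
  have h3 : ((s i : ℕ) + d) % N ≡ (s i : ℕ) + d [MOD (m + 1)] :=
    (Nat.mod_modEq _ N).of_dvd hdiv
  have h4 := h3.add_right (∑ j ∈ J.erase i, (s j : ℕ))
  have h5 : ((s i : ℕ) + ∑ j ∈ J.erase i, (s j : ℕ)) % (m + 1) + d
      ≡ (s i : ℕ) + ∑ j ∈ J.erase i, (s j : ℕ) + d [MOD (m + 1)] :=
    (Nat.mod_modEq _ _).add_right d
  refine h4.trans ?_
  refine Nat.ModEq.trans ?_ h5.symm
  rw [show (s i : ℕ) + d + ∑ j ∈ J.erase i, (s j : ℕ)
    = (s i : ℕ) + ∑ j ∈ J.erase i, (s j : ℕ) + d by ring]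

/-- the vectors on a given line -/
def onLine (m : ℕ) (J : Finset σ) (N : ℕ) (r : ℕ) : Finset (σ → Fin N) :=
  Finset.univ.filter (fun s => line m J s = r)

theorem card_onLine_le (hdiv : (m + 1) ∣ N) {J : Finset σ} (hJ : J.Nonempty) {r l : ℕ}
    (hr : r ≤ m) (hl : l ≤ m) : (onLine m J N r).card ≤ (onLine m J N l).card := by
  obtain ⟨i, hi⟩ := hJ
  apply Finset.card_le_card_of_injOn (shf i (l + (m + 1) - r))
  · intro s hs
    simp only [onLine, Finset.coe_filter, Finset.mem_univ, true_and, Set.mem_ofPred_eq] at hs ⊢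
    rw [line_shf hdiv hi, hs, show r + (l + (m + 1) - r) = l + (m + 1) by omega,
      Nat.add_mod_right, Nat.mod_eq_of_lt (by omega)]
  · exact (shf_injective i _).injOn

theorem card_onLine (hdiv : (m + 1) ∣ N) {J : Finset σ} (hJ : J.Nonempty) {r : ℕ}
    (hr : r ≤ m) : (m + 1) * (onLine m J N r).card = N ^ Fintype.card σ := by
  have h1 : (Finset.univ : Finset (σ → Fin N)).card
      = ∑ l ∈ Finset.range (m + 1), (onLine m J N l).card := by
    apply Finset.card_eq_sum_card_fiberwise
    intro s _
    have := line_le (m := m) J s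
    simp only [Finset.coe_range, Set.mem_Iio]
    omega
  have h2 : ∀ l ∈ Finset.range (m + 1), (onLine m J N l).card = (onLine m J N r).card := by
    intro l hl
    have hl' : l ≤ m := by simp only [Finset.mem_range] at hl; omega
    exact le_antisymm (card_onLine_le hdiv hJ hl' hr) (card_onLine_le hdiv hJ hr hl')
  rw [Finset.sum_congr rfl h2, Finset.sum_const, Finset.card_range, smul_eq_mul] at h1
  rw [← h1]
  simp

/-- vectors whose `i`-th coordinate is among the last `m` -/
def bad (m : ℕ) (N : ℕ) (i : σ) : Finset (σ → Fin N) :=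
  Finset.univ.filter (fun s => N ≤ (s i : ℕ) + m)

theorem card_bad (m : ℕ) (i : σ) :
    (bad m N i).card ≤ m * N ^ (Fintype.card σ - 1) := by
  have h1 : bad m N i ⊆ Fintype.piFinset (fun j => if j = i then
      (Finset.univ.filter (fun t : Fin N => N ≤ (t : ℕ) + m)) else Finset.univ) := by
    intro s hs
    simp only [bad, Finset.mem_filter, Finset.mem_univ, true_and] at hs
    rw [Fintype.mem_piFinset]
    intro j
    by_cases hj : j = i
    · subst hj; simpa using hs
    · simp [hj]
  refine (Finset.card_le_card h1).trans ?_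
  rw [Fintype.card_piFinset]
  rw [← Finset.mul_prod_erase Finset.univ _ (Finset.mem_univ i)]
  have h2 : ∏ x ∈ Finset.univ.erase i, (if x = i then
      (Finset.univ.filter (fun t : Fin N => N ≤ (t : ℕ) + m)) else Finset.univ).card
      = N ^ (Fintype.card σ - 1) := by
    rw [Finset.prod_congr rfl (g := fun _ => N)]
    · rw [Finset.prod_const, Finset.card_erase_of_mem (Finset.mem_univ i), Finset.card_univ]
    · intro j hj
      simp [(Finset.mem_erase.1 hj).1]
  rw [h2]
  apply Nat.mul_le_mul_right
  simp only [if_true]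
  have h3 : (Finset.univ.filter (fun t : Fin N => N ≤ (t : ℕ) + m)).card
      ≤ (Finset.Ico (N - m) N).card := by
    apply Finset.card_le_card_of_injOn (fun t : Fin N => (t : ℕ))
    · intro t ht
      simp only [Finset.coe_filter, Finset.mem_univ, true_and, Set.mem_ofPred_eq] at ht
      simp only [Finset.coe_Ico, Set.mem_Ico]
      have := t.2
      omega
    · intro a _ b _ hab
      exact Fin.ext hab
  refine h3.trans ?_
  rw [Nat.card_Ico]
  omega

/-- The monotonicity of the allocation in the code moves mass from any line to any other line. -/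
theorem line_transfer (hdiv : (m + 1) ∣ N) {J : Finset σ} {i : σ} (hi : i ∈ J)
    (f : (σ → Fin N) → ℝ) (f0 : ∀ s, 0 ≤ f s) (f1 : ∀ s, f s ≤ 1)
    (fm : ∀ s (t : Fin N), s i ≤ t → f s ≤ f (Function.update s i t))
    {r l : ℕ} (hr : r ≤ m) (hl : l ≤ m) :
    ∑ s ∈ onLine m J N r, f s ≤ ∑ s ∈ onLine m J N l, f s + (bad m N i).card := by
  classical
  set d := (l + (m + 1) - r) % (m + 1) with hd
  have hdm : d ≤ m := by
    have h : (l + (m + 1) - r) % (m + 1) < m + 1 := Nat.mod_lt _ (Nat.succ_pos m)
    exact Nat.lt_succ_iff.1 h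
  have hline : ∀ s ∈ onLine m J N r, shf i d s ∈ onLine m J N l := by
    intro s hs
    simp only [onLine, Finset.mem_filter, Finset.mem_univ, true_and] at hs ⊢
    rw [line_shf hdiv hi, hs, hd, Nat.add_mod_mod,
      show r + (l + (m + 1) - r) = l + (m + 1) by omega, Nat.add_mod_right,
      Nat.mod_eq_of_lt (by omega)]
  have hstep : ∀ s ∈ onLine m J N r, f s ≤ f (shf i d s) + (if s ∈ bad m N i then 1 else 0) := by
    intro s _
    split_ifs with hb
    · have := f1 s
      have := f0 (shf i d s)
      linarith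
    · simp only [bad, Finset.mem_filter, Finset.mem_univ, true_and, not_le] at hb
      have h1 : ((s i : ℕ) + d) % N = (s i : ℕ) + d := Nat.mod_eq_of_lt (by omega)
      have := fm s ⟨((s i : ℕ) + d) % N,
        Nat.mod_lt _ (lt_of_le_of_lt (Nat.zero_le _) (s i).2)⟩ (by
          rw [Fin.le_def]
          simp only [h1]
          omega)
      simpa [shf] using this
  calc ∑ s ∈ onLine m J N r, f s
      ≤ ∑ s ∈ onLine m J N r, (f (shf i d s) + (if s ∈ bad m N i then 1 else 0)) :=
        Finset.sum_le_sum hstep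
    _ = ∑ s ∈ onLine m J N r, f (shf i d s)
        + ∑ s ∈ onLine m J N r, (if s ∈ bad m N i then (1 : ℝ) else 0) :=
        Finset.sum_add_distrib
    _ ≤ ∑ s ∈ onLine m J N l, f s + (bad m N i).card := by
        apply add_le_add
        · rw [← Finset.sum_image (f := f) (g := shf i d) (s := onLine m J N r)
            (fun a _ b _ hab => shf_injective i d hab)]
          apply Finset.sum_le_sum_of_subset_of_nonneg
          · intro t ht
            obtain ⟨s, hs, rfl⟩ := Finset.mem_image.1 ht
            exact hline s hs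
          · intro t _ _
            exact f0 t
        · rw [Finset.sum_ite, Finset.sum_const_zero, add_zero, Finset.sum_const, nsmul_eq_mul,
            mul_one]
          exact_mod_cast Finset.card_le_card (by
            intro s hs
            exact (Finset.mem_filter.1 hs).2)

/-- regrouping a sum over all codes by lines -/
theorem sum_by_line (J : Finset σ) (f : (σ → Fin N) → ℝ) :
    ∑ s, f s = ∑ r ∈ Finset.range (m + 1), ∑ s ∈ onLine m J N r, f s := by
  symm
  apply Finset.sum_fiberwise_of_maps_to
  intro s _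
  have := line_le (m := m) J s
  simp only [Finset.mem_range]
  omega

end Lines

end Pool.Agent.U30.KL
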