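import Mathlib

/-!
# Single-item auctions with correlated values and the `k`-lookahead mechanism

Definitions for MP_0f9109_lc.
-/

set_option autoImplicit false

open scoped BigOperators

noncomputable section

namespace Pool.Agent.U30.KL

/-- A (randomised) single-item mechanism for the bidders `ι`: allocation probabilities `x v i` and
expected payments `p v i` for every vector `v` of bids. -/
structure Mechanism (ι : Type) where
  x : (ι → ℝ) → ι → ℝ
  p : (ι → ℝ) → ι → ℝ

/-- All bids (values) are positive. -/
def PosProfile {ι : Type} (v : ι → ℝ) : Prop := ∀ i, 0 < v i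

/-- A mechanism is admissible if, on positive bid vectors, allocation probabilities are nonnegative
and sum to at most one, no bidder raises her expected utility by misreporting her value
(truthfulness in expectation), and every utility is nonnegative (individual rationality). -/
structure Mechanism.Valid {ι : Type} [Fintype ι] [DecidableEq ι] (M : Mechanism ι) : Prop where
  nonneg : ∀ v, PosProfile v → ∀ i, 0 ≤ M.x v i
  feasible : ∀ v, PosProfile v → ∑ i, M.x v i ≤ 1
  truthful : ∀ v, PosProfile v → ∀ i (b : ℝ), 0 < b →
    M.x (Function.update v i b) i * v i - M.p (Function.update v i b) i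
      ≤ M.x v i * v i - M.p v i
  rational : ∀ v, PosProfile v → ∀ i, 0 ≤ M.x v i * v i - M.p v i

/-- A finitely supported probability distribution on vectors of positive values of `n` bidders. -/
structure Law (n : ℕ) where
  w : (Fin n → ℝ) →₀ ℝ
  nonneg : ∀ v, 0 ≤ w v
  total : w.sum (fun _ a => a) = 1
  pos : ∀ v ∈ w.support, PosProfile v

/-- Expected revenue of a mechanism. -/
def Law.rev {n : ℕ} (D : Law n) (M : Mechanism (Fin n)) : ℝ :=
  D.w.sum (fun v a => a * ∑ i, M.p v i)

/-- The largest expected revenue of an admissible mechanism. -/
def Law.opt {n : ℕ} (D : Law n) : ℝ :=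
  sSup {r | ∃ M : Mechanism (Fin n), M.Valid ∧ r = D.rev M}

/-- The set of the `k` highest bidders, ties broken by index: bidder `i` is in the set when
fewer than `k` bidders precede her. -/
def top (k : ℕ) {n : ℕ} (v : Fin n → ℝ) : Finset (Fin n) :=
  Finset.univ.filter (fun i =>
    (Finset.univ.filter (fun j => v i < v j ∨ (v j = v i ∧ j < i))).card < k)

/-- The values of the bidders in `K`. -/
def inside {n : ℕ} (K : Finset (Fin n)) (v : Fin n → ℝ) : {i // i ∈ K} → ℝ := fun i => v i.1

/-- The values of the bidders outside `K`. -/
def outside {n : ℕ} (K : Finset (Fin n)) (v : Fin n → ℝ) : {i // i ∉ K} → ℝ := fun i => v i.1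

/-- The conditioning event for the set `K` and the values `z` outside `K`: the values outside `K`
are `z`, and every value inside `K` is at least the largest value outside `K`. -/
def event {n : ℕ} (K : Finset (Fin n)) (z : {i // i ∉ K} → ℝ) : Set (Fin n → ℝ) :=
  {v | outside K v = z ∧ ∀ i ∈ K, ∀ j (hj : j ∉ K), z ⟨j, hj⟩ ≤ v i}

open Classical in
/-- The expected revenue of a mechanism for the bidders in `K` under the conditional distribution
`D_K` given the event `event K z` (the conditional expectation of the sum of the payments). -/
def Law.condRev {n : ℕ} (D : Law n) (K : Finset (Fin n)) (z : {i // i ∉ K} → ℝ)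
    (M : Mechanism {i // i ∈ K}) : ℝ :=
  (D.w.sum (fun v a => if v ∈ event K z then a * ∑ i, M.p (inside K v) i else 0)) /
    (D.w.sum (fun v a => if v ∈ event K z then a else 0))

/-- A choice of mechanisms, one for each set `K` of bidders and each vector of values outside `K`. -/
abbrev Rule (n : ℕ) : Type :=
  ∀ K : Finset (Fin n), ({i // i ∉ K} → ℝ) → Mechanism {i // i ∈ K}

/-- `R` is a `k`-lookahead mechanism for `D`: for every value vector `v` in the support, with `K`
the set of the `k` highest bidders, the mechanism used for the bidders in `K` is admissible and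
maximises the expected revenue under `D_K` among all admissible mechanisms for `K`. -/
def IsLookahead (k : ℕ) {n : ℕ} (D : Law n) (R : Rule n) : Prop :=
  ∀ v ∈ D.w.support,
    (R (top k v) (outside (top k v) v)).Valid ∧
    ∀ M : Mechanism {i // i ∈ top k v}, M.Valid →
      D.condRev (top k v) (outside (top k v) v) M ≤
        D.condRev (top k v) (outside (top k v) v) (R (top k v) (outside (top k v) v))

/-- The revenue collected at the value vector `v`: the bidders outside the set `K` of the `k`
highest bidders receive and pay nothing, and the bidders in `K` are served by the chosen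
mechanism. -/
def Rule.pay (k : ℕ) {n : ℕ} (R : Rule n) (v : Fin n → ℝ) : ℝ :=
  ∑ i, (R (top k v) (outside (top k v) v)).p (inside (top k v) v) i

/-- The expected revenue of the lookahead mechanism. -/
def Law.lookRev (k : ℕ) {n : ℕ} (D : Law n) (R : Rule n) : ℝ :=
  D.w.sum (fun v a => a * R.pay k v)

/-- The set of all ratios of the revenue of a `k`-lookahead mechanism to the optimal revenue. -/
def ratios (k : ℕ) : Set ℝ :=
  {r | ∃ (n : ℕ) (D : Law n) (R : Rule n), IsLookahead k D R ∧ 0 < D.opt ∧
    r = D.lookRev k R / D.opt}

/-- The approximation ratio `ρ_k` of the `k`-lookahead mechanism. -/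
def rho (k : ℕ) : ℝ := sInf (ratios k)

end Pool.Agent.U30.KL
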