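import Pool.Agent.U30.KL.Defs

set_option autoImplicit false
set_option linter.unusedSectionVars false

open scoped BigOperators Topology

noncomputable section

namespace Pool.Agent.U30.KL

variable {ι : Type} [Fintype ι] [DecidableEq ι]

theorem PosProfile.update {v : ι → ℝ} (hv : PosProfile v) (i : ι) {b : ℝ} (hb : 0 < b) :
    PosProfile (Function.update v i b) := by
  intro j
  by_cases h : j = i
  · subst h; simpa using hb
  · simpa [Function.update_of_ne h] using hv j

theorem Mechanism.Valid.x_le_one {M : Mechanism ι} (h : M.Valid) {v : ι → ℝ}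
    (hv : PosProfile v) (i : ι) : M.x v i ≤ 1 :=
  (Finset.single_le_sum (fun j _ => h.nonneg v hv j) (Finset.mem_univ i)).trans (h.feasible v hv)

theorem Mechanism.Valid.p_le {M : Mechanism ι} (h : M.Valid) {v : ι → ℝ}
    (hv : PosProfile v) (i : ι) : M.p v i ≤ v i := by
  have h1 := h.rational v hv i
  have h2 := h.x_le_one hv i
  have h3 := hv i
  nlinarith

/-- the infimum of the payments of bidder `i` over her bids -/
def lowPay (M : Mechanism ι) (v : ι → ℝ) (i : ι) : ℝ :=
  sInf {r | ∃ b : ℝ, 0 < b ∧ r = M.p (Function.update v i b) i}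

theorem lowPay_update (M : Mechanism ι) (v : ι → ℝ) (i : ι) (b : ℝ) :
    lowPay M (Function.update v i b) i = lowPay M v i := by
  simp [lowPay, Function.update_idem]

theorem lowPay_lower {M : Mechanism ι} (h : M.Valid) {v : ι → ℝ} (hv : PosProfile v) (i : ι)
    {b : ℝ} (hb : 0 < b) : M.p v i - M.x v i * v i ≤ M.p (Function.update v i b) i := by
  have h1 := h.truthful v hv i b hb
  have h2 := h.nonneg _ (hv.update i hb) i
  have h3 := hv i
  nlinarith

theorem bddBelow_pay {M : Mechanism ι} (h : M.Valid) {v : ι → ℝ} (hv : PosProfile v) (i : ι) :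
    BddBelow {r | ∃ b : ℝ, 0 < b ∧ r = M.p (Function.update v i b) i} := by
  refine ⟨M.p v i - M.x v i * v i, ?_⟩
  rintro r ⟨b, hb, rfl⟩
  exact lowPay_lower h hv i hb

theorem lowPay_le {M : Mechanism ι} (h : M.Valid) {v : ι → ℝ} (hv : PosProfile v) (i : ι)
    {b : ℝ} (hb : 0 < b) : lowPay M v i ≤ M.p (Function.update v i b) i :=
  csInf_le (bddBelow_pay h hv i) ⟨b, hb, rfl⟩

theorem lowPay_le_self {M : Mechanism ι} (h : M.Valid) {v : ι → ℝ} (hv : PosProfile v) (i : ι) :
    lowPay M v i ≤ M.p v i := by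
  have := lowPay_le h hv i (hv i)
  rwa [Function.update_eq_self] at this

theorem lowPay_nonpos {M : Mechanism ι} (h : M.Valid) {v : ι → ℝ} (hv : PosProfile v) (i : ι) :
    lowPay M v i ≤ 0 := by
  apply le_of_forall_pos_le_add
  intro b hb
  have h1 := lowPay_le h hv i hb
  have h2 := h.p_le (hv.update i hb) i
  rw [Function.update_self] at h2
  linarith

theorem le_lowPay {M : Mechanism ι} (h : M.Valid) {v : ι → ℝ} (hv : PosProfile v) (i : ι) :
    M.p v i - M.x v i * v i ≤ lowPay M v i := by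
  apply le_csInf
  · exact ⟨_, 1, one_pos, rfl⟩
  · rintro r ⟨b, hb, rfl⟩
    exact lowPay_lower h hv i hb

open Classical in
/-- the mechanism with the payments raised as much as possible -/
def raise (M : Mechanism ι) : Mechanism ι where
  x v i := if PosProfile v then M.x v i else 0
  p v i := if PosProfile v then M.p v i - lowPay M v i else 0

theorem raise_valid {M : Mechanism ι} (h : M.Valid) : (raise M).Valid := by
  constructor
  · intro v hv i
    simp only [raise, if_pos hv]
    exact h.nonneg v hv i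
  · intro v hv
    simp only [raise, if_pos hv]
    exact h.feasible v hv
  · intro v hv i b hb
    simp only [raise, if_pos hv, if_pos (hv.update i hb), lowPay_update]
    have := h.truthful v hv i b hb
    linarith
  · intro v hv i
    simp only [raise, if_pos hv]
    have := le_lowPay h hv i
    linarith

/-- the box containing all raised mechanisms -/
def box (ι : Type) : Set (((ι → ℝ) → ι → ℝ) × ((ι → ℝ) → ι → ℝ)) :=
  (Set.pi Set.univ fun _ => Set.pi Set.univ fun _ => Set.Icc (0 : ℝ) 1) ×ˢ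
    (Set.pi Set.univ fun v => Set.pi Set.univ fun i => Set.Icc (0 : ℝ) (max (v i) 0))

theorem isCompact_box : IsCompact (box ι) := by
  apply IsCompact.prod
  · exact isCompact_univ_pi fun _ => isCompact_univ_pi fun _ => isCompact_Icc
  · exact isCompact_univ_pi fun _ => isCompact_univ_pi fun _ => isCompact_Icc

theorem raise_mem_box {M : Mechanism ι} (h : M.Valid) :
    ((raise M).x, (raise M).p) ∈ box ι := by
  constructor
  · intro v _ i _
    by_cases hv : PosProfile v
    · exact ⟨(raise_valid h).nonneg v hv i, (raise_valid h).x_le_one hv i⟩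
    · simp [raise, hv]
  · intro v _ i _
    by_cases hv : PosProfile v
    · refine ⟨?_, ((raise_valid h).p_le hv i).trans (le_max_left _ _)⟩
      simp only [raise, if_pos hv]
      have := lowPay_le_self h hv i
      linarith
    · simp [raise, hv]

theorem isClosed_valid :
    IsClosed {q : ((ι → ℝ) → ι → ℝ) × ((ι → ℝ) → ι → ℝ) | (Mechanism.mk q.1 q.2).Valid} := by
  have e : {q : ((ι → ℝ) → ι → ℝ) × ((ι → ℝ) → ι → ℝ) | (Mechanism.mk q.1 q.2).Valid}
      = (⋂ v : {v : ι → ℝ // PosProfile v}, ⋂ i, {q | 0 ≤ q.1 v.1 i}) ∩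
        ((⋂ v : {v : ι → ℝ // PosProfile v}, {q | ∑ i, q.1 v.1 i ≤ 1}) ∩
        ((⋂ v : {v : ι → ℝ // PosProfile v}, ⋂ i, ⋂ b : {b : ℝ // 0 < b},
          {q | q.1 (Function.update v.1 i b.1) i * v.1 i - q.2 (Function.update v.1 i b.1) i
            ≤ q.1 v.1 i * v.1 i - q.2 v.1 i}) ∩
        (⋂ v : {v : ι → ℝ // PosProfile v}, ⋂ i, {q | 0 ≤ q.1 v.1 i * v.1 i - q.2 v.1 i}))) := by
    ext q
    constructor
    · intro h
      refine ⟨?_, ?_, ?_, ?_⟩
      · exact Set.mem_iInter.2 fun v => Set.mem_iInter.2 fun i => h.nonneg v.1 v.2 i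
      · exact Set.mem_iInter.2 fun v => h.feasible v.1 v.2
      · exact Set.mem_iInter.2 fun v => Set.mem_iInter.2 fun i => Set.mem_iInter.2 fun b =>
          h.truthful v.1 v.2 i b.1 b.2
      · exact Set.mem_iInter.2 fun v => Set.mem_iInter.2 fun i => h.rational v.1 v.2 i
    · rintro ⟨h1, h2, h3, h4⟩
      constructor
      · intro v hv i
        exact Set.mem_iInter.1 (Set.mem_iInter.1 h1 ⟨v, hv⟩) i
      · intro v hv
        exact Set.mem_iInter.1 h2 ⟨v, hv⟩
      · intro v hv i b hb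
        exact Set.mem_iInter.1 (Set.mem_iInter.1 (Set.mem_iInter.1 h3 ⟨v, hv⟩) i) ⟨b, hb⟩
      · intro v hv i
        exact Set.mem_iInter.1 (Set.mem_iInter.1 h4 ⟨v, hv⟩) i
  rw [e]
  refine IsClosed.inter ?_ (IsClosed.inter ?_ (IsClosed.inter ?_ ?_))
  · exact isClosed_iInter fun v => isClosed_iInter fun i =>
      isClosed_le (by fun_prop) (by fun_prop)
  · exact isClosed_iInter fun v => isClosed_le (by fun_prop) (by fun_prop)
  · exact isClosed_iInter fun v => isClosed_iInter fun i => isClosed_iInter fun b =>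
      isClosed_le (by fun_prop) (by fun_prop)
  · exact isClosed_iInter fun v => isClosed_iInter fun i =>
      isClosed_le (by fun_prop) (by fun_prop)

/-- the mechanism that does nothing -/
def zeroMech (ι : Type) : Mechanism ι := ⟨fun _ _ => 0, fun _ _ => 0⟩

theorem zeroMech_valid : (zeroMech ι).Valid := by
  constructor <;> simp [zeroMech]

/-- Revenue-maximising admissible mechanisms exist. -/
theorem exists_opt {Ω : Type} (F : Finset Ω) (g : Ω → ι → ℝ) (c : Ω → ℝ)
    (hc : ∀ ω ∈ F, 0 ≤ c ω) (hF : ∀ ω ∈ F, PosProfile (g ω)) :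
    ∃ M : Mechanism ι, M.Valid ∧ ∀ M' : Mechanism ι, M'.Valid →
      ∑ ω ∈ F, c ω * ∑ i, M'.p (g ω) i ≤ ∑ ω ∈ F, c ω * ∑ i, M.p (g ω) i := by
  have hcomp : IsCompact (box ι ∩
      {q : ((ι → ℝ) → ι → ℝ) × ((ι → ℝ) → ι → ℝ) | (Mechanism.mk q.1 q.2).Valid}) :=
    isCompact_box.inter_right isClosed_valid
  have hne : (box ι ∩
      {q : ((ι → ℝ) → ι → ℝ) × ((ι → ℝ) → ι → ℝ) | (Mechanism.mk q.1 q.2).Valid}).Nonempty :=
    ⟨((raise (zeroMech ι)).x, (raise (zeroMech ι)).p), raise_mem_box zeroMech_valid,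
      raise_valid zeroMech_valid⟩
  have hcont : Continuous (fun q : ((ι → ℝ) → ι → ℝ) × ((ι → ℝ) → ι → ℝ) =>
      ∑ ω ∈ F, c ω * ∑ i, q.2 (g ω) i) := by fun_prop
  obtain ⟨q, hq, hmax⟩ := hcomp.exists_isMaxOn hne hcont.continuousOn
  refine ⟨⟨q.1, q.2⟩, hq.2, fun M' hM' => ?_⟩
  have h1 : ∑ ω ∈ F, c ω * ∑ i, (raise M').p (g ω) i ≤ ∑ ω ∈ F, c ω * ∑ i, q.2 (g ω) i :=
    hmax ⟨raise_mem_box hM', raise_valid hM'⟩
  refine le_trans ?_ h1
  apply Finset.sum_le_sum
  intro ω hω
  apply mul_le_mul_of_nonneg_left _ (hc ω hω)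
  apply Finset.sum_le_sum
  intro i _
  simp only [raise, if_pos (hF ω hω)]
  have := lowPay_nonpos hM' (hF ω hω) i
  linarith

open Classical in
/-- For every law and every `k` there is a `k`-lookahead mechanism. -/
theorem exists_rule (k : ℕ) {n : ℕ} (D : Law n) : ∃ R : Rule n, IsLookahead k D R := by
  have h : ∀ (K : Finset (Fin n)) (z : {i // i ∉ K} → ℝ), ∃ M : Mechanism {i // i ∈ K},
      M.Valid ∧ ∀ M' : Mechanism {i // i ∈ K}, M'.Valid →
        D.condRev K z M' ≤ D.condRev K z M := by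
    intro K z
    obtain ⟨M, hM, hmax⟩ := exists_opt (ι := {i // i ∈ K}) D.w.support (inside K)
      (fun v => if v ∈ event K z then D.w v else 0)
      (fun v _ => by
        split_ifs
        · exact D.nonneg v
        · exact le_rfl)
      (fun v hv i => D.pos v hv i.1)
    refine ⟨M, hM, fun M' hM' => ?_⟩
    have h1 := hmax M' hM'
    simp only [ite_mul, zero_mul] at h1
    unfold Law.condRev
    apply div_le_div_of_nonneg_right
    · exact h1
    · apply Finset.sum_nonneg
      intro v _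
      show 0 ≤ if v ∈ event K z then D.w v else 0
      split_ifs
      · exact D.nonneg v
      · exact le_rfl
  choose R hR using h
  exact ⟨R, fun v _ => ⟨(hR _ _).1, (hR _ _).2⟩⟩

/-- The expected revenue of an admissible mechanism is bounded. -/
theorem bddAbove_rev {n : ℕ} (D : Law n) :
    BddAbove {r | ∃ M : Mechanism (Fin n), M.Valid ∧ r = D.rev M} := by
  refine ⟨D.w.sum (fun v a => a * ∑ i, v i), ?_⟩
  rintro r ⟨M, hM, rfl⟩
  apply Finset.sum_le_sum
  intro v hv
  apply mul_le_mul_of_nonneg_left _ (D.nonneg v)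
  exact Finset.sum_le_sum (fun i _ => hM.p_le (D.pos v hv) i)

theorem le_opt {n : ℕ} (D : Law n) {M : Mechanism (Fin n)} (hM : M.Valid) :
    D.rev M ≤ D.opt := le_csSup (bddAbove_rev D) ⟨M, hM, rfl⟩

/-- Optimal revenue is attained. -/
theorem opt_attained {n : ℕ} (D : Law n) : ∃ M : Mechanism (Fin n), M.Valid ∧ D.opt = D.rev M := by
  obtain ⟨M, hM, hmax⟩ := exists_opt D.w.support (fun v => v) D.w (fun v _ => D.nonneg v) D.pos
  refine ⟨M, hM, le_antisymm ?_ (le_opt D hM)⟩
  unfold Law.opt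
  apply csSup_le
  · exact ⟨D.rev M, M, hM, rfl⟩
  · rintro r ⟨M', hM', rfl⟩
    exact hmax M' hM'

end Pool.Agent.U30.KL
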