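import Pool.Agent.U30.KL.Bound
import Pool.Agent.U30.KL.Exist

set_option autoImplicit false
set_option linter.unusedSectionVars false
set_option linter.unusedVariables false

open scoped BigOperators

noncomputable section

namespace Pool.Agent.U30.KL

/-! ### General facts -/

theorem Mechanism.Valid.mono {ι : Type} [Fintype ι] [DecidableEq ι] {M : Mechanism ι}
    (h : M.Valid) {v : ι → ℝ} (hv : PosProfile v) (i : ι) {b : ℝ} (hb : v i ≤ b) :
    M.x v i ≤ M.x (Function.update v i b) i := by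
  rcases hb.eq_or_lt with he | hlt
  · rw [← he, Function.update_eq_self]
  · have hb0 : 0 < b := (hv i).trans hlt
    have h1 := h.truthful v hv i b hb0
    have h2 := h.truthful (Function.update v i b) (hv.update i hb0) i (v i) (hv i)
    rw [Function.update_idem, Function.update_eq_self, Function.update_self] at h2
    nlinarith

/-- a combination of point masses -/
def mix {n : ℕ} {Ω : Type} (T : Finset Ω) (g : Ω → Fin n → ℝ) (c : Ω → ℝ) :
    (Fin n → ℝ) →₀ ℝ := ∑ ω ∈ T, Finsupp.single (g ω) (c ω)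

theorem mix_sum {n : ℕ} {Ω : Type} (T : Finset Ω) (g : Ω → Fin n → ℝ) (c : Ω → ℝ)
    (f : (Fin n → ℝ) → ℝ) :
    (mix T g c).sum (fun v a => a * f v) = ∑ ω ∈ T, c ω * f (g ω) := by
  unfold mix
  rw [← Finsupp.sum_finsetSum_index (fun v => zero_mul _) (fun v a b => add_mul _ _ _)]
  apply Finset.sum_congr rfl
  intro ω _
  rw [Finsupp.sum_single_index (zero_mul _)]

theorem mix_total {n : ℕ} {Ω : Type} (T : Finset Ω) (g : Ω → Fin n → ℝ) (c : Ω → ℝ) :
    (mix T g c).sum (fun _ a => a) = ∑ ω ∈ T, c ω := by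
  have := mix_sum T g c (fun _ => 1)
  simpa using this

theorem mix_nonneg {n : ℕ} {Ω : Type} (T : Finset Ω) (g : Ω → Fin n → ℝ) (c : Ω → ℝ)
    (hc : ∀ ω ∈ T, 0 ≤ c ω) (v : Fin n → ℝ) : 0 ≤ mix T g c v := by
  classical
  unfold mix
  rw [Finsupp.finsetSum_apply]
  apply Finset.sum_nonneg
  intro ω hω
  rw [Finsupp.single_apply]
  split_ifs
  · exact hc ω hω
  · exact le_rfl

theorem mix_support {n : ℕ} {Ω : Type} (T : Finset Ω) (g : Ω → Fin n → ℝ) (c : Ω → ℝ)
    {v : Fin n → ℝ} (hv : v ∈ (mix T g c).support) : ∃ ω ∈ T, v = g ω := by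
  classical
  by_contra hcon
  push Not at hcon
  rw [Finsupp.mem_support_iff] at hv
  apply hv
  unfold mix
  rw [Finsupp.finsetSum_apply]
  apply Finset.sum_eq_zero
  intro ω hω
  rw [Finsupp.single_apply, if_neg]
  intro h
  exact hcon ω hω h.symm

/-! ### The bidders -/

section

variable (k : ℕ)

/-- the bidder of value one -/
def b0 : Fin (k + 1) := ⟨0, Nat.succ_pos k⟩

/-- the bidder with the threshold -/
def b1 (hk : 2 ≤ k) : Fin (k + 1) := ⟨1, by omega⟩

/-- the coding bidders -/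
def J (hk : 2 ≤ k) : Finset (Fin (k + 1)) := Finset.univ.filter (fun i => i ≠ b0 k ∧ i ≠ b1 k hk)

/-- everybody except the bidder of value one -/
def K0 : Finset (Fin (k + 1)) := Finset.univ.erase (b0 k)

variable {k} (hk : 2 ≤ k)

theorem b1_ne_b0 : b1 k hk ≠ b0 k := by
  intro h
  have := congrArg Fin.val h
  simp [b1, b0] at this

theorem b1_notMem_J : b1 k hk ∉ J k hk := by simp [J]

theorem b0_notMem_J : b0 k ∉ J k hk := by simp [J]

theorem J_nonempty : (J k hk).Nonempty := by
  refine ⟨⟨2, by omega⟩, ?_⟩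
  simp [J, b0, b1]

theorem K0_eq : K0 k = insert (b1 k hk) (J k hk) := by
  ext i
  simp only [K0, J, Finset.mem_erase, Finset.mem_univ, Finset.mem_insert, Finset.mem_filter,
    true_and, and_true]
  constructor
  · intro h
    by_cases h1 : i = b1 k hk
    · exact Or.inl h1
    · exact Or.inr ⟨h, h1⟩
  · rintro (h | h)
    · rw [h]; exact b1_ne_b0 hk
    · exact h.1

theorem top_eq {v : Fin (k + 1) → ℝ} (hv : ∀ i, i ≠ b0 k → v (b0 k) < v i) :
    top k v = K0 k := by
  ext i
  simp only [top, K0, Finset.mem_filter, Finset.mem_univ, true_and, Finset.mem_erase, and_true]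
  constructor
  · intro h hi
    subst hi
    have h1 : Finset.univ.erase (b0 k) ⊆
        Finset.univ.filter (fun j => v (b0 k) < v j ∨ (v j = v (b0 k) ∧ j < b0 k)) := by
      intro j hj
      simp only [Finset.mem_filter, Finset.mem_univ, true_and]
      exact Or.inl (hv j (Finset.mem_erase.1 hj).1)
    have h2 := Finset.card_le_card h1
    rw [Finset.card_erase_of_mem (Finset.mem_univ _), Finset.card_univ, Fintype.card_fin] at h2
    omega
  · intro hi
    have h1 : Finset.univ.filter (fun j => v i < v j ∨ (v j = v i ∧ j < i)) ⊆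
        (Finset.univ.erase (b0 k)).erase i := by
      intro j hj
      simp only [Finset.mem_filter, Finset.mem_univ, true_and] at hj
      simp only [Finset.mem_erase, Finset.mem_univ, and_true]
      constructor
      · rintro rfl
        rcases hj with hj | hj
        · exact lt_irrefl _ hj
        · exact lt_irrefl _ hj.2
      · rintro rfl
        have := hv i hi
        rcases hj with hj | hj
        · linarith
        · linarith [hj.1]
    have h2 := Finset.card_le_card h1
    rw [Finset.card_erase_of_mem (Finset.mem_erase.2 ⟨hi, Finset.mem_univ _⟩),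
      Finset.card_erase_of_mem (Finset.mem_univ _), Finset.card_univ, Fintype.card_fin] at h2
    omega

/-! ### The profiles -/

variable (m : ℕ) (u : ℕ → ℝ) {N : ℕ} (η : ℝ)

/-- values of the bidder with the threshold -/
def lev (l : ℕ) : ℝ := 1 / (1 - u (min l m))

/-- values of the coding bidders -/
def val (t : Fin N) : ℝ := 1 + η * (((t : ℕ) : ℝ) + 1) / (N + 1)

/-- the value vectors of the instance -/
def prof (l : ℕ) (s : Fin (k + 1) → Fin N) : Fin (k + 1) → ℝ := fun i =>
  if i = b0 k then 1 else if i = b1 k hk then lev m u l else val η (s i)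

variable {m u η}

theorem one_lt_lev (h : Lev m u) (l : ℕ) : 1 < lev m u l := by
  have h1 := h.pos (min l m) (min_le_right _ _)
  have h2 := h.lt_one (min l m) (min_le_right _ _)
  unfold lev
  rw [lt_div_iff₀ (by linarith)]
  linarith

theorem one_lt_val (hη : 0 < η) (t : Fin N) : 1 < val η t := by
  unfold val
  have : 0 < η * (((t : ℕ) : ℝ) + 1) / (N + 1) := by positivity
  linarith

theorem val_le (hη : 0 < η) (t : Fin N) : val η t ≤ 1 + η := by
  unfold val
  have h1 : ((t : ℕ) : ℝ) + 1 ≤ N := by exact_mod_cast t.2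
  have h2 : η * (((t : ℕ) : ℝ) + 1) / (N + 1) ≤ η := by
    rw [div_le_iff₀ (by positivity)]
    nlinarith
  linarith

theorem val_mono (hη : 0 < η) {s t : Fin N} (h : s ≤ t) : val η s ≤ val η t := by
  unfold val
  have h1 : ((s : ℕ) : ℝ) ≤ ((t : ℕ) : ℝ) := by exact_mod_cast h
  have h2 : η * (((s : ℕ) : ℝ) + 1) / (N + 1) ≤ η * (((t : ℕ) : ℝ) + 1) / (N + 1) := by
    apply div_le_div_of_nonneg_right _ (by positivity)
    nlinarith
  linarith

theorem val_injective (hη : 0 < η) : Function.Injective (val (N := N) η) := by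
  intro s t h
  unfold val at h
  have h1 : η * (((s : ℕ) : ℝ) + 1) / (N + 1) = η * (((t : ℕ) : ℝ) + 1) / (N + 1) := by linarith
  have hN : (0 : ℝ) < N + 1 := by positivity
  rw [div_left_inj' hN.ne'] at h1
  have h2 := mul_left_cancel₀ hη.ne' h1
  have h3 : ((s : ℕ) : ℝ) = ((t : ℕ) : ℝ) := by linarith
  exact Fin.ext (by exact_mod_cast h3)

theorem prof_b0 (l : ℕ) (s : Fin (k + 1) → Fin N) : prof hk m u η l s (b0 k) = 1 := by
  simp [prof]

theorem prof_b1 (l : ℕ) (s : Fin (k + 1) → Fin N) :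
    prof hk m u η l s (b1 k hk) = lev m u l := by
  simp [prof, b1_ne_b0]

theorem prof_J (l : ℕ) (s : Fin (k + 1) → Fin N) {i : Fin (k + 1)} (hi : i ∈ J k hk) :
    prof hk m u η l s i = val η (s i) := by
  simp only [J, Finset.mem_filter, Finset.mem_univ, true_and] at hi
  simp [prof, hi.1, hi.2]

theorem prof_gt (h : Lev m u) (hη : 0 < η) (l : ℕ) (s : Fin (k + 1) → Fin N) :
    ∀ i, i ≠ b0 k → prof hk m u η l s (b0 k) < prof hk m u η l s i := by
  intro i hi
  rw [prof_b0]
  unfold prof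
  rw [if_neg hi]
  split_ifs
  · exact one_lt_lev h l
  · exact one_lt_val hη _

theorem prof_pos (h : Lev m u) (hη : 0 < η) (l : ℕ) (s : Fin (k + 1) → Fin N) :
    PosProfile (prof hk m u η l s) := by
  intro i
  by_cases hi : i = b0 k
  · rw [hi, prof_b0]; exact one_pos
  · have := prof_gt hk h hη l s i hi
    rw [prof_b0] at this
    linarith

theorem inside_update {n : ℕ} (K : Finset (Fin n)) (v : Fin n → ℝ) {i : Fin n} (hi : i ∈ K)
    (b : ℝ) : inside K (Function.update v i b) = Function.update (inside K v) ⟨i, hi⟩ b := by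
  funext j
  by_cases hj : j.1 = i
  · have : j = ⟨i, hi⟩ := Subtype.ext hj
    subst this
    simp [inside]
  · have : j ≠ ⟨i, hi⟩ := fun hh => hj (congrArg Subtype.val hh)
    simp [inside, Function.update_of_ne this, Function.update_of_ne hj]

theorem prof_update_J (l : ℕ) (s : Fin (k + 1) → Fin N) {i : Fin (k + 1)} (hi : i ∈ J k hk)
    (t : Fin N) : prof hk m u η l (Function.update s i t)
      = Function.update (prof hk m u η l s) i (val η t) := by
  funext j
  by_cases hj : j = i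
  · subst hj
    rw [prof_J hk l _ hi]
    simp
  · rw [Function.update_of_ne hj]
    simp [prof, Function.update_of_ne hj]

theorem prof_update_b1 (l l' : ℕ) (s : Fin (k + 1) → Fin N) :
    prof hk m u η l' s = Function.update (prof hk m u η l s) (b1 k hk) (lev m u l') := by
  funext j
  by_cases hj : j = b1 k hk
  · subst hj
    rw [prof_b1]
    simp
  · rw [Function.update_of_ne hj]
    simp [prof, hj]

/-! ### Any admissible mechanism for `K0` collects little -/

theorem lookahead_bound (h : Lev m u) (hη : 0 < η) (hdiv : (m + 1) ∣ N)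
    {M : Mechanism {i // i ∈ K0 k}} (hM : M.Valid) :
    ∑ s : Fin (k + 1) → Fin N, ∑ l ∈ Finset.range (m + 1), W m u (line m (J k hk) s) l *
        ∑ i, M.p (inside (K0 k) (prof hk m u η l s)) i
      ≤ (1 + η) / u 0 * ((N : ℝ) ^ (k + 1) / (m + 1)
        + (J k hk).card * (m * (N : ℝ) ^ k)) := by
  classical
  have hb1 : b1 k hk ∈ K0 k := by rw [K0_eq hk]; exact Finset.mem_insert_self _ _
  have hJK : ∀ i ∈ J k hk, i ∈ K0 k := fun i hi => by
    rw [K0_eq hk]; exact Finset.mem_insert_of_mem hi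
  set P : ℕ → (Fin (k + 1) → Fin N) → ({i // i ∈ K0 k} → ℝ) :=
    fun l s => inside (K0 k) (prof hk m u η l s) with hP
  have hPpos : ∀ l s, PosProfile (P l s) := fun l s i => prof_pos hk h hη l s i.1
  set xs : ℕ → (Fin (k + 1) → Fin N) → Fin (k + 1) → ℝ :=
    fun l s i => if hi : i ∈ K0 k then M.x (P l s) ⟨i, hi⟩ else 0 with hxs
  set ps : ℕ → (Fin (k + 1) → Fin N) → Fin (k + 1) → ℝ :=
    fun l s i => if hi : i ∈ K0 k then M.p (P l s) ⟨i, hi⟩ else 0 with hps
  have hsum : ∀ (f : {i // i ∈ K0 k} → ℝ),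
      ∑ i, f i = f ⟨b1 k hk, hb1⟩ + ∑ i ∈ J k hk, (if hi : i ∈ K0 k then f ⟨i, hi⟩ else 0) := by
    intro f
    have e1 : ∑ i : {i // i ∈ K0 k}, f i
        = ∑ i : {i // i ∈ K0 k}, (fun j => if hj : j ∈ K0 k then f ⟨j, hj⟩ else 0) i.1 := by
      apply Finset.sum_congr rfl
      intro i _
      simp [i.2]
    rw [e1]
    rw [Finset.sum_coe_sort (K0 k) (fun j => if hj : j ∈ K0 k then f ⟨j, hj⟩ else 0)]
    have e2 : ∑ i ∈ K0 k, (fun j => if hj : j ∈ K0 k then f ⟨j, hj⟩ else 0) i
        = ∑ i ∈ insert (b1 k hk) (J k hk),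
          (fun j => if hj : j ∈ K0 k then f ⟨j, hj⟩ else 0) i := by
      rw [← K0_eq hk]
    rw [e2, Finset.sum_insert (b1_notMem_J hk)]
    simp only [dif_pos hb1]
  have key := core_bound (σ := Fin (k + 1)) (N := N) h hdiv (J_nonempty hk) hη.le
    (fun l s => M.x (P l s) ⟨b1 k hk, hb1⟩) (fun l s => M.p (P l s) ⟨b1 k hk, hb1⟩) xs ps
    ?_ ?_ ?_ ?_ ?_ ?_ ?_
  · have hcard : Fintype.card (Fin (k + 1)) = k + 1 := Fintype.card_fin _
    rw [hcard] at key
    simp only [Nat.add_sub_cancel] at key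
    refine le_trans (le_of_eq ?_) key
    apply Finset.sum_congr rfl
    intro s _
    apply Finset.sum_congr rfl
    intro l _
    congr 1
    rw [hsum]
  · -- first level
    intro s
    have h1 := hM.rational (P 0 s) (hPpos 0 s) ⟨b1 k hk, hb1⟩
    have h2 : P 0 s ⟨b1 k hk, hb1⟩ = lev m u 0 := prof_b1 hk 0 s
    rw [h2] at h1
    have h3 : (1 - u 0) * lev m u 0 = 1 := by
      unfold lev
      rw [Nat.zero_min]
      have := h.lt_one 0 (Nat.zero_le _)
      field_simp [show (1 - u 0) ≠ 0 by linarith]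
    have h4 := h.lt_one 0 (Nat.zero_le _)
    have h5 : (1 - u 0) * M.p (P 0 s) ⟨b1 k hk, hb1⟩
        ≤ (1 - u 0) * (M.x (P 0 s) ⟨b1 k hk, hb1⟩ * lev m u 0) :=
      mul_le_mul_of_nonneg_left (by linarith) (by linarith)
    calc (1 - u 0) * M.p (P 0 s) ⟨b1 k hk, hb1⟩
        ≤ (1 - u 0) * (M.x (P 0 s) ⟨b1 k hk, hb1⟩ * lev m u 0) := h5
      _ = M.x (P 0 s) ⟨b1 k hk, hb1⟩ * ((1 - u 0) * lev m u 0) := by ring
      _ = M.x (P 0 s) ⟨b1 k hk, hb1⟩ := by rw [h3, mul_one]
  · -- next levels
    intro s l hl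
    have hup : P l s = Function.update (P (l + 1) s) ⟨b1 k hk, hb1⟩ (lev m u l) := by
      simp only [hP]
      rw [← inside_update, ← prof_update_b1]
    have h1 := hM.truthful (P (l + 1) s) (hPpos (l + 1) s) ⟨b1 k hk, hb1⟩ (lev m u l)
      (by have := one_lt_lev h l; linarith)
    rw [← hup] at h1
    have h2 : P (l + 1) s ⟨b1 k hk, hb1⟩ = lev m u (l + 1) := prof_b1 hk (l + 1) s
    rw [h2] at h1
    have h4 := h.lt_one (l + 1) hl
    have h3 : (1 - u (l + 1)) * lev m u (l + 1) = 1 := by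
      unfold lev
      rw [min_eq_left (show l + 1 ≤ m from hl)]
      field_simp [show (1 - u (l + 1)) ≠ 0 by linarith]
    have h5 : M.p (P (l + 1) s) ⟨b1 k hk, hb1⟩ - M.p (P l s) ⟨b1 k hk, hb1⟩
        ≤ (M.x (P (l + 1) s) ⟨b1 k hk, hb1⟩ - M.x (P l s) ⟨b1 k hk, hb1⟩) * lev m u (l + 1) := by
      linarith
    calc (1 - u (l + 1)) * (M.p (P (l + 1) s) ⟨b1 k hk, hb1⟩ - M.p (P l s) ⟨b1 k hk, hb1⟩)
        ≤ (1 - u (l + 1)) * ((M.x (P (l + 1) s) ⟨b1 k hk, hb1⟩
            - M.x (P l s) ⟨b1 k hk, hb1⟩) * lev m u (l + 1)) :=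
          mul_le_mul_of_nonneg_left h5 (by linarith)
      _ = (M.x (P (l + 1) s) ⟨b1 k hk, hb1⟩ - M.x (P l s) ⟨b1 k hk, hb1⟩)
            * ((1 - u (l + 1)) * lev m u (l + 1)) := by ring
      _ = M.x (P (l + 1) s) ⟨b1 k hk, hb1⟩ - M.x (P l s) ⟨b1 k hk, hb1⟩ := by
          rw [h3, mul_one]
  · -- small payments
    intro l s i hi
    have hiK := hJK i hi
    simp only [hxs, hps, dif_pos hiK]
    have h1 := hM.rational (P l s) (hPpos l s) ⟨i, hiK⟩
    have h2 : P l s ⟨i, hiK⟩ = val η (s i) := prof_J hk l s hi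
    rw [h2] at h1
    have h3 := val_le hη (s i)
    have h4 := hM.nonneg (P l s) (hPpos l s) ⟨i, hiK⟩
    nlinarith
  · intro l s i hi
    have hiK := hJK i hi
    simp only [hxs, dif_pos hiK]
    exact hM.nonneg (P l s) (hPpos l s) ⟨i, hiK⟩
  · intro l s
    exact hM.nonneg (P l s) (hPpos l s) _
  · intro l s
    have h1 := hM.feasible (P l s) (hPpos l s)
    rw [hsum (M.x (P l s))] at h1
    exact h1
  · intro l s i hi t hst
    have hiK := hJK i hi
    simp only [hxs, dif_pos hiK]
    have h1 : P l (Function.update s i t) = Function.update (P l s) ⟨i, hiK⟩ (val η t) := by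
      simp only [hP]
      rw [prof_update_J hk l s hi, inside_update]
    rw [h1]
    apply hM.mono (hPpos l s)
    have h2 : P l s ⟨i, hiK⟩ = val η (s i) := prof_J hk l s hi
    rw [h2]
    exact val_mono hη hst

end

end Pool.Agent.U30.KL
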