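import Pool.Agent.U30.KL.Bench

set_option autoImplicit false
set_option linter.unusedSectionVars false
set_option linter.unusedVariables false

open scoped BigOperators Topology
open Filter

noncomputable section

namespace Pool.Agent.U30.KL

/-! ### The ratios are nonnegative -/

theorem mem_event_self (k : ℕ) {n : ℕ} (v : Fin n → ℝ) :
    v ∈ event (top k v) (outside (top k v) v) := by
  refine ⟨rfl, ?_⟩
  intro i hi j hj
  show v j ≤ v i
  by_contra hlt
  push Not at hlt
  apply hj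
  simp only [top, Finset.mem_filter, Finset.mem_univ, true_and] at hi ⊢
  refine lt_of_le_of_lt (Finset.card_le_card ?_) hi
  intro a ha
  simp only [Finset.mem_filter, Finset.mem_univ, true_and] at ha ⊢
  rcases ha with ha | ha
  · exact Or.inl (hlt.trans ha)
  · left; rw [ha.1]; exact hlt

theorem pay_nonneg (k : ℕ) {n : ℕ} (D : Law n) {R : Rule n} (hR : IsLookahead k D R)
    {v : Fin n → ℝ} (hv : v ∈ D.w.support) : 0 ≤ R.pay k v := by
  classical
  obtain ⟨hM, hmax⟩ := hR v hv
  set K := top k v with hK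
  set z := outside K v with hz
  set M := R K z with hMdef
  have hev : v ∈ event K z := mem_event_self k v
  have hmax' := hmax (raise M) (raise_valid hM)
  have hden : 0 < D.w.sum (fun v' a => if v' ∈ event K z then a else 0) := by
    have h1 : 0 < (fun v' a => if v' ∈ event K z then a else (0 : ℝ)) v (D.w v) := by
      simp only [if_pos hev]
      exact lt_of_le_of_ne (D.nonneg v) (Ne.symm (Finsupp.mem_support_iff.1 hv))
    refine lt_of_lt_of_le h1 ?_
    apply Finset.single_le_sum (f := fun v' => if v' ∈ event K z then D.w v' else (0 : ℝ)) _ hv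
    intro v' _
    show 0 ≤ if v' ∈ event K z then D.w v' else (0 : ℝ)
    split_ifs
    · exact D.nonneg v'
    · exact le_rfl
  unfold Law.condRev at hmax'
  have hle := (div_le_div_iff_of_pos_right hden).1 hmax'
  have hterm : ∀ v' ∈ D.w.support,
      (if v' ∈ event K z then D.w v' * ∑ i, M.p (inside K v') i else 0)
        ≤ (if v' ∈ event K z then D.w v' * ∑ i, (raise M).p (inside K v') i else 0) := by
    intro v' hv'
    split_ifs
    · apply mul_le_mul_of_nonneg_left _ (D.nonneg v')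
      apply Finset.sum_le_sum
      intro i _
      have hpos : PosProfile (inside K v') := fun j => D.pos v' hv' j.1
      simp only [raise, if_pos hpos]
      have := lowPay_nonpos hM hpos i
      linarith
    · exact le_rfl
  have heq := (Finset.sum_eq_sum_iff_of_le hterm).1 (le_antisymm (Finset.sum_le_sum hterm) hle)
    v hv
  rw [if_pos hev, if_pos hev] at heq
  have h2 : D.w v ≠ 0 := Finsupp.mem_support_iff.1 hv
  have h3 := mul_left_cancel₀ h2 heq
  have hpos : PosProfile (inside K v) := fun j => D.pos v hv j.1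
  show 0 ≤ ∑ i, M.p (inside K v) i
  rw [h3]
  apply Finset.sum_nonneg
  intro i _
  simp only [raise, if_pos hpos]
  have := lowPay_le_self hM hpos i
  linarith

theorem ratios_nonneg (k : ℕ) {r : ℝ} (hr : r ∈ ratios k) : 0 ≤ r := by
  obtain ⟨n, D, R, hR, hopt, rfl⟩ := hr
  apply div_nonneg _ hopt.le
  apply Finset.sum_nonneg
  intro v hv
  exact mul_nonneg (D.nonneg v) (pay_nonneg k D hR hv)

theorem bddBelow_ratios (k : ℕ) : BddBelow (ratios k) := ⟨0, fun _ hr => ratios_nonneg k hr⟩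

/-! ### The parameters -/

/-- the geometric levels -/
def geo (m : ℕ) (l : ℕ) : ℝ := ((m : ℝ) / (m + 1)) ^ (m + 1 - l)

theorem geo_lev {m : ℕ} (hm : 1 ≤ m) : Lev m (geo m) := by
  have hm0 : (0 : ℝ) < m := by exact_mod_cast hm
  have hq0 : (0 : ℝ) < (m : ℝ) / (m + 1) := by positivity
  have hq1 : (m : ℝ) / (m + 1) < 1 := by
    rw [div_lt_one (by positivity)]; linarith
  constructor
  · intro l _
    unfold geo
    positivity
  · intro l hl
    unfold geo
    exact pow_lt_one₀ hq0.le hq1 (by omega)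
  · intro l hl
    unfold geo
    exact pow_le_pow_of_le_one hq0.le hq1.le (by omega)

theorem geo_sum {m : ℕ} (hm : 1 ≤ m) :
    ∑ r ∈ Finset.range (m + 1), lam m (geo m) r * (1 + geo m r - geo m 0)
      = 1 / geo m 0 * (1 + ((m : ℝ) / (m + 1)) ^ (m + 2)) := by
  have hm0 : (0 : ℝ) < m := by exact_mod_cast hm
  set q : ℝ := (m : ℝ) / (m + 1) with hq
  have hq0 : (0 : ℝ) < q := by positivity
  have hL := geo_lev hm
  have e1 : ∑ r ∈ Finset.range (m + 1), lam m (geo m) r * (1 + geo m r - geo m 0)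
      = (1 - geo m 0) * ∑ r ∈ Finset.range (m + 1), lam m (geo m) r
        + ∑ r ∈ Finset.range (m + 1), lam m (geo m) r * geo m r := by
    rw [Finset.mul_sum, ← Finset.sum_add_distrib]
    apply Finset.sum_congr rfl
    intro r _
    ring
  have e2 : ∑ r ∈ Finset.range (m + 1), lam m (geo m) r * geo m r = m * (1 - q) + 1 := by
    rw [Finset.sum_range_succ]
    have h1 : ∀ r ∈ Finset.range m, lam m (geo m) r * geo m r = 1 - q := by
      intro r hr
      have hr' : r < m := Finset.mem_range.1 hr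
      have hne : r ≠ m := by omega
      simp only [lam, if_neg hne]
      have h2 : geo m r = q * geo m (r + 1) := by
        unfold geo
        rw [← hq, show m + 1 - r = (m + 1 - (r + 1)) + 1 by omega, pow_succ]
        ring
      have h3 : geo m (r + 1) ≠ 0 := (hL.pos (r + 1) hr').ne'
      rw [h2]
      field_simp
    rw [Finset.sum_congr rfl h1, Finset.sum_const, Finset.card_range, nsmul_eq_mul]
    have h4 : geo m m ≠ 0 := (hL.pos m le_rfl).ne'
    simp only [lam, if_true]
    field_simp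
  rw [e1, e2, sum_lam hL]
  have h5 : geo m 0 = q ^ (m + 1) := by simp [geo, hq]
  have h6 : (m : ℝ) * (1 - q) = q := by
    rw [hq]; field_simp; ring
  rw [h6, h5, pow_succ q (m + 1)]
  have h7 : q ^ (m + 1) ≠ 0 := (pow_pos hq0 _).ne'
  field_simp
  ring

/-- The ratio of the instance for finite parameters. -/
theorem exists_ratio {k : ℕ} (hk : 2 ≤ k) {m : ℕ} (hm : 1 ≤ m) :
    ∃ r ∈ ratios k,
      r ≤ (1 + 1 / ((m : ℝ) + 1)) ^ 2 / (1 + ((m : ℝ) / (m + 1)) ^ (m + 2)) := by
  set N : ℕ := (m + 1) * ((k + 1) * (m + 1) ^ 2) with hN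
  have hNpos : 0 < N := by positivity
  have : NeZero N := ⟨hNpos.ne'⟩
  have hdiv : (m + 1) ∣ N := ⟨_, rfl⟩
  have hL := geo_lev hm
  have hη : (0 : ℝ) < 1 / ((m : ℝ) + 1) := by positivity
  set η : ℝ := 1 / ((m : ℝ) + 1) with hηdef
  set D := inst hk (N := N) hL hη hdiv with hD
  obtain ⟨R, hR⟩ := exists_rule k D
  have hT := tot_pos hk (N := N) hL hdiv
  have hopt := inst_opt hk (N := N) hL hη hdiv
  have hlook := inst_look hk (N := N) hL hη hdiv hR
  rw [geo_sum hm] at hopt
  have hg0 := hL.pos 0 (Nat.zero_le _)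
  have hNr : (0 : ℝ) < (N : ℝ) := by exact_mod_cast hNpos
  have hm0 : (0 : ℝ) < m := by exact_mod_cast hm
  set T := tot hk m (geo m) N with hTdef
  set L : ℝ := (N : ℝ) ^ (k + 1) / (m + 1) with hLdef
  have hL0 : 0 < L := by positivity
  set B : ℝ := 1 + ((m : ℝ) / (m + 1)) ^ (m + 2) with hB
  have hB0 : 0 < B := by positivity
  have hlow0 : 0 < L * (1 / geo m 0 * B) / T := by positivity
  have hopt0 : 0 < D.opt := lt_of_lt_of_le hlow0 hopt
  -- size of the boundary term
  have hbd : ((J k hk).card : ℝ) * (m * (N : ℝ) ^ k) ≤ η * L := by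
    have h1 : ((J k hk).card : ℝ) ≤ (k : ℝ) + 1 := by
      have := Finset.card_le_univ (J k hk)
      rw [Fintype.card_fin] at this
      exact_mod_cast this
    have h2 : η * L = ((k : ℝ) + 1) * ((m : ℝ) + 1) * (N : ℝ) ^ k := by
      rw [hηdef, hLdef, pow_succ]
      have h3 : (N : ℝ) = ((m : ℝ) + 1) * (((k : ℝ) + 1) * ((m : ℝ) + 1) ^ 2) := by
        rw [hN]; push_cast; ring
      have h4 : (N : ℝ) ^ k * (N : ℝ)
          = (N : ℝ) ^ k * (((m : ℝ) + 1) * (((k : ℝ) + 1) * ((m : ℝ) + 1) ^ 2)) := by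
        rw [← h3]
      rw [h4]
      field_simp
    rw [h2]
    have h5 : (0 : ℝ) ≤ (N : ℝ) ^ k := by positivity
    have h6 : ((J k hk).card : ℝ) * m ≤ ((k : ℝ) + 1) * ((m : ℝ) + 1) := by
      have h7 : (0 : ℝ) ≤ (J k hk).card := Nat.cast_nonneg _
      nlinarith
    calc ((J k hk).card : ℝ) * (m * (N : ℝ) ^ k)
        = (((J k hk).card : ℝ) * m) * (N : ℝ) ^ k := by ring
      _ ≤ (((k : ℝ) + 1) * ((m : ℝ) + 1)) * (N : ℝ) ^ k :=
          mul_le_mul_of_nonneg_right h6 h5
  have hmem : D.lookRev k R / D.opt ∈ ratios k := ⟨_, D, R, hR, hopt0, rfl⟩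
  refine ⟨_, hmem, ?_⟩
  have hlook2 : D.lookRev k R ≤ (1 + η) ^ 2 * (L * (1 / geo m 0)) / T := by
    refine hlook.trans ?_
    apply div_le_div_of_nonneg_right _ hT.le
    have h8 : (1 + η) / geo m 0 * (L + ((J k hk).card : ℝ) * (m * (N : ℝ) ^ k))
        ≤ (1 + η) / geo m 0 * (L + η * L) := by
      apply mul_le_mul_of_nonneg_left _ (by positivity)
      linarith
    refine h8.trans (le_of_eq ?_)
    field_simp
  calc D.lookRev k R / D.opt
      ≤ ((1 + η) ^ 2 * (L * (1 / geo m 0)) / T) / D.opt :=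
        div_le_div_of_nonneg_right hlook2 hopt0.le
    _ ≤ ((1 + η) ^ 2 * (L * (1 / geo m 0)) / T) / (L * (1 / geo m 0 * B) / T) := by
        apply div_le_div_of_nonneg_left _ hlow0 hopt
        positivity
    _ = (1 + η) ^ 2 / B := by
        field_simp

/-- The upper bound for finite parameters. -/
theorem rho_le_param {k : ℕ} (hk : 2 ≤ k) {m : ℕ} (hm : 1 ≤ m) :
    rho k ≤ (1 + 1 / ((m : ℝ) + 1)) ^ 2 / (1 + ((m : ℝ) / (m + 1)) ^ (m + 2)) := by
  obtain ⟨r, hr, hle⟩ := exists_ratio hk hm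
  exact (csInf_le (bddBelow_ratios k) hr).trans hle

theorem ratios_nonempty {k : ℕ} (hk : 2 ≤ k) : (ratios k).Nonempty := by
  obtain ⟨r, hr, _⟩ := exists_ratio hk (le_refl 1)
  exact ⟨r, hr⟩

theorem limit_param :
    Tendsto (fun m : ℕ => (1 + 1 / ((m : ℝ) + 1)) ^ 2 / (1 + ((m : ℝ) / (m + 1)) ^ (m + 2)))
      atTop (𝓝 (Real.exp 1 / (1 + Real.exp 1))) := by
  have h1 : Tendsto (fun m : ℕ => 1 / ((m : ℝ) + 1)) atTop (𝓝 0) :=
    tendsto_one_div_add_atTop_nhds_zero_nat
  have h2 : Tendsto (fun m : ℕ => (m : ℝ) / (m + 1)) atTop (𝓝 1) := by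
    have : (fun m : ℕ => (m : ℝ) / (m + 1)) = fun m : ℕ => 1 - 1 / ((m : ℝ) + 1) := by
      funext m
      field_simp
      ring
    rw [this]
    simpa using tendsto_const_nhds.sub h1
  have h3 : Tendsto (fun m : ℕ => ((m : ℝ) / (m + 1)) ^ (m + 2)) atTop (𝓝 (Real.exp (-1))) := by
    have h4 : Tendsto (fun n : ℕ => (1 + (-1) / (n : ℝ)) ^ n) atTop (𝓝 (Real.exp (-1))) :=
      Real.tendsto_one_add_div_pow_exp (-1)
    have h5 := h4.comp (tendsto_add_atTop_nat 1)
    have h6 : Tendsto (fun m : ℕ => ((fun n : ℕ => (1 + (-1) / (n : ℝ)) ^ n) ∘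
        fun a => a + 1) m * ((m : ℝ) / (m + 1))) atTop (𝓝 (Real.exp (-1) * 1)) := h5.mul h2
    rw [mul_one] at h6
    refine h6.congr ?_
    intro m
    simp only [Function.comp]
    have h7 : (1 + (-1) / ((m + 1 : ℕ) : ℝ)) = (m : ℝ) / (m + 1) := by
      push_cast
      field_simp
      ring
    rw [h7, ← pow_succ]
  have h8 : Tendsto (fun m : ℕ => (1 + 1 / ((m : ℝ) + 1)) ^ 2 /
      (1 + ((m : ℝ) / (m + 1)) ^ (m + 2))) atTop (𝓝 ((1 + 0) ^ 2 / (1 + Real.exp (-1)))) := by
    apply Tendsto.div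
    · exact (tendsto_const_nhds.add h1).pow 2
    · exact tendsto_const_nhds.add h3
    · have := Real.exp_pos (-1)
      positivity
  convert h8 using 2
  rw [Real.exp_neg]
  have := Real.exp_pos 1
  field_simp
  ring

/-- **The upper bound**: `ρ_k ≤ e / (1 + e)` for every `k ≥ 2`. -/
theorem rho_le {k : ℕ} (hk : 2 ≤ k) : rho k ≤ Real.exp 1 / (1 + Real.exp 1) := by
  apply ge_of_tendsto limit_param
  filter_upwards [eventually_ge_atTop 1] with m hm
  exact rho_le_param hk hm

/-- `ρ_k` does not converge to `1`. -/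
theorem not_tendsto_one : ¬ Tendsto rho atTop (𝓝 1) := by
  intro h
  have h1 : (1 : ℝ) ≤ Real.exp 1 / (1 + Real.exp 1) := by
    apply le_of_tendsto h
    filter_upwards [eventually_ge_atTop 2] with k hk
    exact rho_le hk
  have := Real.exp_pos 1
  rw [le_div_iff₀ (by positivity)] at h1
  linarith

end Pool.Agent.U30.KL
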